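import Pool.Agent.Lib.MP_64ae42_mp.Resid

set_option autoImplicit false

namespace Pool.Agent.MP_64ae42_mp

open scoped ENNReal InnerProductSpace
open Complex

section crit

variable {V D : Type} (src : D → V) (rev : D → D) (v0 : V)
variable [Fintype V] [Fintype D] (a : D → ℝ) (b : V → ℝ) (m : D → ℂ) (lam : ℝ)

/-- the residual vector -/
noncomputable def resid (R : ℕ) : L2 (paths src rev v0) :=
  Jac src rev v0 a b (trunc src rev v0 a m R) - (lam : ℂ) • trunc src rev v0 a m R

theorem resid_apply (R : ℕ) (x : paths src rev v0) :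
    resid src rev v0 a b m lam R x =
      Jac src rev v0 a b (trunc src rev v0 a m R) x - lam * trunc src rev v0 a m R x := by
  unfold resid
  rw [lp.coeFn_sub, Pi.sub_apply, lp.coeFn_smul, Pi.smul_apply, smul_eq_mul]

theorem resid_inner_im (R : ℕ) :
    (⟪trunc src rev v0 a m R, resid src rev v0 a b m lam R⟫_ℂ).im = 0 := by
  unfold resid
  rw [inner_sub_right, inner_smul_right]
  have hsa := Jac_isSelfAdjoint src rev v0 a b
  have h1 : (⟪trunc src rev v0 a m R, Jac src rev v0 a b (trunc src rev v0 a m R)⟫_ℂ).im = 0 := by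
    have h2 : (starRingEnd ℂ) ⟪trunc src rev v0 a m R,
        Jac src rev v0 a b (trunc src rev v0 a m R)⟫_ℂ =
        ⟪trunc src rev v0 a m R, Jac src rev v0 a b (trunc src rev v0 a m R)⟫_ℂ := by
      rw [inner_conj_symm]
      exact (ContinuousLinearMap.isSelfAdjoint_iff_isSymmetric.1 hsa) _ _
    exact Complex.conj_eq_iff_im.1 h2
  have h3 : (⟪trunc src rev v0 a m R, trunc src rev v0 a m R⟫_ℂ).im = 0 := by
    rw [inner_self_eq_norm_sq_to_K]
    norm_cast
  rw [Complex.sub_im, h1, Complex.mul_im, h3]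
  simp

/-- `c0` -/
noncomputable def c0 : ℂ := (b v0 : ℂ) - lam + Art src v0 a m

theorem cases_len (x : paths src rev v0) :
    x.1 = [] ∨ ∃ (t : List D) (c : D), x.1 = t ++ [c] := eq_nil_or_snoc x.1

theorem inner_term (hm : ∀ c, m c * ((lam : ℂ) - (b (src (rev c)) : ℂ) - Aed src rev a m c) = 1)
    (R : ℕ) (hR : 1 ≤ R) (x : paths src rev v0) :
    (starRingEnd ℂ (trunc src rev v0 a m R x)) * resid src rev v0 a b m lam R x =
      (if x.1.length = 0 then c0 src v0 a b m lam else 0) -
      (if x.1.length = R then lastW src rev v0 (Aed src rev a m) x *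
        ((‖wt src rev v0 a m x‖ ^ 2 : ℝ) : ℂ) else 0) := by
  rw [resid_apply]
  rcases eq_nil_or_snoc x.1 with hx | ⟨t, c, hx⟩
  · rw [resid_root src rev v0 a b m lam x hx R hR, trunc_apply]
    have h1 : x.1.length = 0 := by simp [hx]
    have h2 : wt src rev v0 a m x = 1 := by simp [wt, hx]
    have h3 : ¬ (x.1.length = R) := by omega
    rw [if_pos (by omega), if_pos h1, if_neg h3, h2]
    simp [c0]
  · have hlen : x.1.length = t.length + 1 := by simp [hx]
    have h0 : ¬ (x.1.length = 0) := by omega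
    rw [if_neg h0]
    rcases lt_trichotomy x.1.length R with h | h | h
    · rw [resid_mid src rev v0 a b m lam hm x t c hx R h, if_neg (by omega)]
      simp
    · rw [resid_R src rev v0 a b m lam hm x t c hx R h, if_pos h, trunc_apply,
        if_pos (by omega), lastW_snoc src rev v0 _ x t c hx]
      have h5 : ((‖wt src rev v0 a m x‖ ^ 2 : ℝ) : ℂ) =
        (starRingEnd ℂ (wt src rev v0 a m x)) * wt src rev v0 a m x := by
        rw [← Complex.normSq_eq_norm_sq, Complex.normSq_eq_conj_mul_self]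
      rw [h5]
      ring
    · rw [trunc_apply, if_neg (by omega : ¬ (x.1.length ≤ R)), if_neg (by omega)]
      simp

theorem flux (hm : ∀ c, m c * ((lam : ℂ) - (b (src (rev c)) : ℂ) - Aed src rev a m c) = 1)
    (R : ℕ) (hR : 1 ≤ R) :
    (Art src v0 a m).im = ∑' x : paths src rev v0, if x.1.length = R then
      (lastW src rev v0 (Aed src rev a m) x).im * ‖wt src rev v0 a m x‖ ^ 2 else 0 := by
  have h1 := resid_inner_im src rev v0 a b m lam R
  rw [inner_eq, tsum_congr (inner_term src rev v0 a b m lam hm R hR)] at h1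
  have hs1 : Summable fun x : paths src rev v0 =>
      (if x.1.length = 0 then c0 src v0 a b m lam else 0) := by
    apply summable_of_hasFiniteSupport
    apply (finite_len_le src rev v0 0).subset
    intro x hx
    rw [Function.mem_support] at hx
    by_contra hcon
    have : x.1.length ≠ 0 := fun h => hcon (by change x.1.length ≤ 0; omega)
    simp [this] at hx
  have hs2 : Summable fun x : paths src rev v0 =>
      (if x.1.length = R then lastW src rev v0 (Aed src rev a m) x *
        ((‖wt src rev v0 a m x‖ ^ 2 : ℝ) : ℂ) else 0) := by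
    apply summable_of_hasFiniteSupport
    apply (finite_len_le src rev v0 R).subset
    intro x hx
    rw [Function.mem_support] at hx
    by_contra hcon
    have : x.1.length ≠ R := fun h => hcon (by change x.1.length ≤ R; omega)
    simp [this] at hx
  rw [hs1.tsum_sub hs2, Complex.sub_im] at h1
  have h2 : ∑' x : paths src rev v0, (if x.1.length = 0 then c0 src v0 a b m lam else 0) =
      c0 src v0 a b m lam := by
    rw [tsum_eq_single (⟨[], nil_mem_paths src rev v0⟩ : paths src rev v0)]
    · simp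
    · intro y hy
      have : y.1.length ≠ 0 := by
        intro h
        apply hy
        apply Subtype.ext
        exact List.length_eq_zero_iff.1 h
      simp [this]
  rw [h2, Complex.im_tsum hs2] at h1
  have h3 : (c0 src v0 a b m lam).im = (Art src v0 a m).im := by
    simp [c0]
  rw [h3, sub_eq_zero] at h1
  rw [h1]
  apply tsum_congr
  intro x
  split_ifs
  · rw [Complex.mul_im, Complex.ofReal_im, Complex.ofReal_re]
    ring
  · simp

theorem Aed_im (hm : ∀ c, m c * ((lam : ℂ) - (b (src (rev c)) : ℂ) - Aed src rev a m c) = 1)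
    (c : D) : (Aed src rev a m c).im = (m c).im / Complex.normSq (m c) := by
  have h1 : (lam : ℂ) - (b (src (rev c)) : ℂ) - Aed src rev a m c = (m c)⁻¹ :=
    eq_inv_of_mul_eq_one_right (hm c)
  have h2 := congrArg Complex.im h1
  rw [Complex.inv_im] at h2
  simp at h2
  rw [neg_div] at h2
  linarith

/-- bounding constant -/
noncomputable def KK : ℝ :=
  ‖c0 src v0 a b m lam‖ + (∑ c, ‖Aed src rev a m c‖ + ∑ c, ‖(m c)⁻¹‖)

theorem resid_norm (hm : ∀ c, m c * ((lam : ℂ) - (b (src (rev c)) : ℂ) - Aed src rev a m c) = 1)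
    (R : ℕ) (hR : 1 ≤ R) (x : paths src rev v0) :
    ‖resid src rev v0 a b m lam R x‖ ^ 2 ≤ KK src rev v0 a b m lam ^ 2 *
      ((if x.1.length = 0 then ‖wt src rev v0 a m x‖ ^ 2 else 0) +
       ((if x.1.length = R then ‖wt src rev v0 a m x‖ ^ 2 else 0) +
        (if x.1.length = R + 1 then ‖wt src rev v0 a m x‖ ^ 2 else 0))) := by
  have hA : ∀ c, ‖Aed src rev a m c‖ ≤ ∑ c, ‖Aed src rev a m c‖ := fun c =>
    Finset.single_le_sum (f := fun c => ‖Aed src rev a m c‖) (fun i _ => norm_nonneg _)
      (Finset.mem_univ c)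
  have hB : ∀ c, ‖(m c)⁻¹‖ ≤ ∑ c, ‖(m c)⁻¹‖ := fun c =>
    Finset.single_le_sum (f := fun c => ‖(m c)⁻¹‖) (fun i _ => norm_nonneg _)
      (Finset.mem_univ c)
  have hA0 : 0 ≤ ∑ c, ‖Aed src rev a m c‖ := Finset.sum_nonneg fun i _ => norm_nonneg _
  have hB0 : 0 ≤ ∑ c, ‖(m c)⁻¹‖ := Finset.sum_nonneg fun i _ => norm_nonneg _
  have hC0 : 0 ≤ ‖c0 src v0 a b m lam‖ := norm_nonneg _
  rw [resid_apply]
  rcases eq_nil_or_snoc x.1 with hx | ⟨t, c, hx⟩
  · rw [resid_root src rev v0 a b m lam x hx R hR]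
    have h1 : x.1.length = 0 := by simp [hx]
    have h2 : wt src rev v0 a m x = 1 := by simp [wt, hx]
    rw [if_pos h1, if_neg (by omega), if_neg (by omega), h2]
    simp only [norm_one, one_pow, add_zero, mul_one]
    apply pow_le_pow_left₀ (norm_nonneg _)
    unfold KK
    change ‖c0 src v0 a b m lam‖ ≤ _
    linarith
  · have hlen : x.1.length = t.length + 1 := by simp [hx]
    rw [if_neg (by omega : ¬ x.1.length = 0)]
    rcases lt_trichotomy x.1.length R with h | h | h
    · rw [resid_mid src rev v0 a b m lam hm x t c hx R h, if_neg (by omega), if_neg (by omega)]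
      simp
    · rw [resid_R src rev v0 a b m lam hm x t c hx R h, if_pos h, if_neg (by omega), norm_mul,
        mul_pow, norm_neg]
      simp only [add_zero, zero_add]
      apply mul_le_mul_of_nonneg_right _ (sq_nonneg _)
      apply pow_le_pow_left₀ (norm_nonneg _)
      unfold KK
      have := hA c
      linarith
    · by_cases h2 : x.1.length = R + 1
      · rw [resid_R1 src rev v0 a b m lam hm x t c hx R h2, if_neg (by omega), if_pos h2,
          norm_mul, mul_pow]
        simp only [zero_add]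
        apply mul_le_mul_of_nonneg_right _ (sq_nonneg _)
        apply pow_le_pow_left₀ (norm_nonneg _)
        unfold KK
        have := hB c
        linarith
      · rw [resid_out src rev v0 a b m lam x R (by omega), if_neg (by omega), if_neg (by omega)]
        simp

theorem resid_norm_total
    (hm : ∀ c, m c * ((lam : ℂ) - (b (src (rev c)) : ℂ) - Aed src rev a m c) = 1)
    (R : ℕ) (hR : 1 ≤ R) :
    ‖resid src rev v0 a b m lam R‖ ^ 2 ≤ KK src rev v0 a b m lam ^ 2 *
      (sph src rev v0 a m 0 + (sph src rev v0 a m R + sph src rev v0 a m (R + 1))) := by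
  have s0 := sph_summable src rev v0 (fun x => ‖wt src rev v0 a m x‖ ^ 2) 0
  have s1 := sph_summable src rev v0 (fun x => ‖wt src rev v0 a m x‖ ^ 2) R
  have s2 := sph_summable src rev v0 (fun x => ‖wt src rev v0 a m x‖ ^ 2) (R + 1)
  rw [norm_sq_eq]
  unfold sph
  rw [← s1.tsum_add s2, ← s0.tsum_add (s1.add s2), ← tsum_mul_left]
  exact (summable_sq _).tsum_le_tsum (resid_norm src rev v0 a b m lam hm R hR)
    ((s0.add (s1.add s2)).mul_left _)

theorem sph_bounds
    (hm : ∀ c, m c * ((lam : ℂ) - (b (src (rev c)) : ℂ) - Aed src rev a m c) = 1)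
    (k1 k2 : ℝ) (hk1 : ∀ c, k1 ≤ (Aed src rev a m c).im) (hk2 : ∀ c, (Aed src rev a m c).im ≤ k2)
    (R : ℕ) (hR : 1 ≤ R) :
    k1 * sph src rev v0 a m R ≤ (Art src v0 a m).im ∧
      (Art src v0 a m).im ≤ k2 * sph src rev v0 a m R := by
  have hf := flux src rev v0 a b m lam hm R hR
  have s1 := sph_summable src rev v0 (fun x => ‖wt src rev v0 a m x‖ ^ 2) R
  have s2 := sph_summable src rev v0 (fun x => (lastW src rev v0 (Aed src rev a m) x).im *
    ‖wt src rev v0 a m x‖ ^ 2) R
  have hx : ∀ x : paths src rev v0, x.1.length = R →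
      k1 ≤ (lastW src rev v0 (Aed src rev a m) x).im ∧
        (lastW src rev v0 (Aed src rev a m) x).im ≤ k2 := by
    intro x hx
    rcases eq_nil_or_snoc x.1 with h | ⟨t, c, h⟩
    · exfalso
      rw [h] at hx
      simp at hx
      omega
    · rw [lastW_snoc src rev v0 _ x t c h]
      exact ⟨hk1 c, hk2 c⟩
  constructor
  · rw [hf]
    unfold sph
    rw [← tsum_mul_left]
    apply (s1.mul_left k1).tsum_le_tsum _ s2
    intro x
    by_cases h : x.1.length = R
    · simp only [if_pos h]
      exact mul_le_mul_of_nonneg_right (hx x h).1 (sq_nonneg _)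
    · simp [h]
  · rw [hf]
    unfold sph
    rw [← tsum_mul_left]
    apply s2.tsum_le_tsum _ (s1.mul_left k2)
    intro x
    by_cases h : x.1.length = R
    · simp only [if_pos h]
      exact mul_le_mul_of_nonneg_right (hx x h).2 (sq_nonneg _)
    · simp [h]

/-- A solution of the Green function recursion in the upper half plane puts `lam` in the
spectrum. -/
theorem mem_spectrum_of_solution
    (hm : ∀ c, m c * ((lam : ℂ) - (b (src (rev c)) : ℂ) - Aed src rev a m c) = 1)
    (him : ∀ c, 0 < (m c).im) (hroot : 0 < (Art src v0 a m).im) :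
    (lam : ℂ) ∈ spectrum ℂ (Jac src rev v0 a b) := by
  classical
  rw [spectrum.mem_iff]
  rintro ⟨u, hu⟩
  -- bounds for the flux densities
  have hpos : ∀ c, 0 < (Aed src rev a m c).im := by
    intro c
    rw [Aed_im src rev a b m lam hm c]
    have hmc : m c ≠ 0 := left_ne_zero_of_mul (by rw [hm c]; exact one_ne_zero)
    exact div_pos (him c) (Complex.normSq_pos.2 hmc)
  have hne : Nonempty D := by
    by_contra hcon
    rw [not_nonempty_iff] at hcon
    simp [Art] at hroot
  obtain ⟨k1, hk1pos, hk1⟩ : ∃ k1 : ℝ, 0 < k1 ∧ ∀ c, k1 ≤ (Aed src rev a m c).im := by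
    obtain ⟨c, hc⟩ := Finite.exists_min (fun c => (Aed src rev a m c).im)
    exact ⟨_, hpos c, hc⟩
  obtain ⟨k2, hk2pos, hk2⟩ : ∃ k2 : ℝ, 0 < k2 ∧ ∀ c, (Aed src rev a m c).im ≤ k2 := by
    obtain ⟨c, hc⟩ := Finite.exists_max (fun c => (Aed src rev a m c).im)
    exact ⟨_, hpos c, hc⟩
  set J : ℝ := (Art src v0 a m).im with hJ
  set K : ℝ := KK src rev v0 a b m lam with hK
  set S0 : ℝ := sph src rev v0 a m 0 with hS0
  -- inverse operator
  set U : L2 (paths src rev v0) →L[ℂ] L2 (paths src rev v0) := ↑u⁻¹ with hU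
  have hinv : ∀ f : L2 (paths src rev v0),
      U (((algebraMap ℂ (L2 (paths src rev v0) →L[ℂ] L2 (paths src rev v0))) (lam : ℂ)) f -
        Jac src rev v0 a b f) = f := by
    intro f
    have h1 : (↑u⁻¹ : L2 (paths src rev v0) →L[ℂ] L2 (paths src rev v0)) * (↑u) = 1 := u.inv_mul
    have h2 := congrArg (fun (A : L2 (paths src rev v0) →L[ℂ] L2 (paths src rev v0)) => A f) h1
    rw [hu] at h2
    exact h2
  have hle : ∀ R : ℕ, ‖trunc src rev v0 a m R‖ ≤ ‖U‖ * ‖resid src rev v0 a b m lam R‖ := by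
    intro R
    have h1 := hinv (trunc src rev v0 a m R)
    have h2 : ((algebraMap ℂ (L2 (paths src rev v0) →L[ℂ] L2 (paths src rev v0))) (lam : ℂ))
        (trunc src rev v0 a m R) - Jac src rev v0 a b (trunc src rev v0 a m R) =
        - resid src rev v0 a b m lam R := by
      unfold resid
      rw [Algebra.algebraMap_eq_smul_one]
      change (lam : ℂ) • (trunc src rev v0 a m R) - _ = _
      abel
    rw [h2] at h1
    calc ‖trunc src rev v0 a m R‖ = ‖U (- resid src rev v0 a b m lam R)‖ := by rw [h1]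
      _ ≤ ‖U‖ * ‖- resid src rev v0 a b m lam R‖ := U.le_opNorm _
      _ = _ := by rw [norm_neg]
  have hlow : ∀ R : ℕ, (R : ℝ) * (J / k2) ≤ ‖trunc src rev v0 a m R‖ ^ 2 := by
    intro R
    rw [trunc_norm_sq, Finset.sum_range_succ']
    have h1 : ∀ k ∈ Finset.range R, J / k2 ≤ sph src rev v0 a m (k + 1) := by
      intro k _
      rw [div_le_iff₀ hk2pos, mul_comm]
      exact (sph_bounds src rev v0 a b m lam hm k1 k2 hk1 hk2 (k + 1) (by omega)).2
    have h2 := Finset.card_nsmul_le_sum (Finset.range R) _ _ h1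
    rw [Finset.card_range, nsmul_eq_mul] at h2
    have h3 : 0 ≤ sph src rev v0 a m 0 := by
      unfold sph
      apply tsum_nonneg
      intro x
      split_ifs
      · exact sq_nonneg _
      · exact le_refl _
    linarith
  have hup : ∀ R : ℕ, 1 ≤ R → ‖resid src rev v0 a b m lam R‖ ^ 2 ≤
      K ^ 2 * (S0 + (J / k1 + J / k1)) := by
    intro R hR
    have h0 := resid_norm_total src rev v0 a b m lam hm R hR
    have h1 : sph src rev v0 a m R ≤ J / k1 := by
      rw [le_div_iff₀ hk1pos, mul_comm]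
      exact (sph_bounds src rev v0 a b m lam hm k1 k2 hk1 hk2 R hR).1
    have h2 : sph src rev v0 a m (R + 1) ≤ J / k1 := by
      rw [le_div_iff₀ hk1pos, mul_comm]
      exact (sph_bounds src rev v0 a b m lam hm k1 k2 hk1 hk2 (R + 1) (by omega)).1
    apply h0.trans
    apply mul_le_mul_of_nonneg_left _ (sq_nonneg _)
    linarith
  have hJk : 0 < J / k2 := div_pos hroot hk2pos
  obtain ⟨R, hR⟩ := exists_nat_gt ((‖U‖ ^ 2 * (K ^ 2 * (S0 + (J / k1 + J / k1)))) / (J / k2))
  rw [div_lt_iff₀ hJk] at hR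
  have h1 := hlow (R + 1)
  have h2 := hup (R + 1) (by omega)
  have h3 : ‖trunc src rev v0 a m (R + 1)‖ ^ 2 ≤ ‖U‖ ^ 2 * ‖resid src rev v0 a b m lam (R + 1)‖ ^ 2 := by
    rw [← mul_pow]
    exact pow_le_pow_left₀ (norm_nonneg _) (hle (R + 1)) 2
  have h4 : ‖U‖ ^ 2 * ‖resid src rev v0 a b m lam (R + 1)‖ ^ 2 ≤
      ‖U‖ ^ 2 * (K ^ 2 * (S0 + (J / k1 + J / k1))) :=
    mul_le_mul_of_nonneg_left h2 (sq_nonneg _)
  push_cast at h1
  nlinarith

end crit

end Pool.Agent.MP_64ae42_mp
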