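import Mathlib

set_option autoImplicit false

namespace Pool.Agent.MP_64ae42_mp

open Complex

theorem real_cubic_dich (A B C E : ℝ) (hA : A ≠ 0) :
    (∃ Z : ℂ, 0 < Z.im ∧ (A : ℂ) * Z ^ 3 + B * Z ^ 2 + C * Z + E = 0) ∨
      ∃ x y z : ℝ, B = A * -(x + y + z) ∧ C = A * (x * y + x * z + y * z) ∧
        E = A * -(x * y * z) := by
  set P : Cubic ℝ := ⟨A, B, C, E⟩ with hP
  have ha : P.a ≠ 0 := hA
  have hsp : (P.toPoly.map Complex.ofRealHom).Splits := IsAlgClosed.splits _
  obtain ⟨x, y, z, h3⟩ := (Cubic.splits_iff_roots_eq_three ha).1 hsp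
  have hb := Cubic.b_eq_three_roots ha h3
  have hc := Cubic.c_eq_three_roots ha h3
  have hd := Cubic.d_eq_three_roots ha h3
  simp only [hP, Complex.ofRealHom_eq_coe] at hb hc hd
  by_cases hreal : x.im = 0 ∧ y.im = 0 ∧ z.im = 0
  · right
    obtain ⟨hx, hy, hz⟩ := hreal
    have ex : (x.re : ℂ) = x := Complex.ext (by simp) (by simp [hx])
    have ey : (y.re : ℂ) = y := Complex.ext (by simp) (by simp [hy])
    have ez : (z.re : ℂ) = z := Complex.ext (by simp) (by simp [hz])
    refine ⟨x.re, y.re, z.re, ?_, ?_, ?_⟩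
    · have h : ((B : ℝ) : ℂ) = ((A * -(x.re + y.re + z.re) : ℝ) : ℂ) := by
        push_cast
        rw [ex, ey, ez]
        exact hb
      exact_mod_cast h
    · have h : ((C : ℝ) : ℂ) = ((A * (x.re * y.re + x.re * z.re + y.re * z.re) : ℝ) : ℂ) := by
        push_cast
        rw [ex, ey, ez]
        exact hc
      exact_mod_cast h
    · have h : ((E : ℝ) : ℂ) = ((A * -(x.re * y.re * z.re) : ℝ) : ℂ) := by
        push_cast
        rw [ex, ey, ez]
        exact hd
      exact_mod_cast h
  · left
    have key : ∀ w : ℂ, w.im ≠ 0 → (A : ℂ) * w ^ 3 + B * w ^ 2 + C * w + E = 0 →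
        ∃ Z : ℂ, 0 < Z.im ∧ (A : ℂ) * Z ^ 3 + B * Z ^ 2 + C * Z + E = 0 := by
      intro w hw hw0
      rcases lt_or_gt_of_ne hw with h | h
      · refine ⟨(starRingEnd ℂ) w, by simpa using h, ?_⟩
        have := congrArg (starRingEnd ℂ) hw0
        simpa using this
      · exact ⟨w, h, hw0⟩
    by_cases hx : x.im = 0
    · by_cases hy : y.im = 0
      · have hz : z.im ≠ 0 := fun h => hreal ⟨hx, hy, h⟩
        apply key z hz
        rw [hb, hc, hd]
        ring
      · apply key y hy
        rw [hb, hc, hd]
        ring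
    · apply key x hx
      rw [hb, hc, hd]
      ring

theorem ordered_good (x y z M : ℝ) (hx : 0 < x) (hxy : x ≤ y) (hyz : y ≤ z)
    (hM : 0 < M) (hsum : x + y + z = 3 * M) (hprod : x * y * z = M)
    (hne : (M - x) * (M - y) * (M - z) ≠ 0) : x < 1 ∧ x < M := by
  have hzM : M < z := by
    rcases lt_or_eq_of_le (by linarith : M ≤ z) with h | h
    · exact h
    · exfalso; apply hne; rw [h]; ring
  have hxM : x < M := by
    rcases lt_or_eq_of_le (by linarith : x ≤ M) with h | h
    · exact h
    · exfalso; apply hne; rw [h]; ring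
  refine ⟨?_, hxM⟩
  by_contra hcon
  push Not at hcon
  have h1 : 1 ≤ x * y := by nlinarith
  have h2 : z ≤ x * y * z := by nlinarith
  linarith

theorem exists_good (x y z M : ℝ) (hx : 0 < x) (hy : 0 < y) (hz : 0 < z)
    (hM : 0 < M) (hsum : x + y + z = 3 * M) (hprod : x * y * z = M)
    (hne : (M - x) * (M - y) * (M - z) ≠ 0) :
    ∃ w : ℝ, (w = x ∨ w = y ∨ w = z) ∧ 0 < w ∧ w < 1 ∧ w < M := by
  rcases le_total x y with h1 | h1 <;> rcases le_total y z with h2 | h2 <;>
    rcases le_total x z with h3 | h3
  · obtain ⟨h4, h5⟩ := ordered_good x y z M hx h1 h2 hM hsum hprod hne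
    exact ⟨x, Or.inl rfl, hx, h4, h5⟩
  · obtain ⟨h4, h5⟩ := ordered_good x y z M hx h1 h2 hM hsum hprod hne
    exact ⟨x, Or.inl rfl, hx, h4, h5⟩
  · obtain ⟨h4, h5⟩ := ordered_good x z y M hx h3 h2 hM (by linarith) (by linarith)
      (by intro h; apply hne; linarith)
    exact ⟨x, Or.inl rfl, hx, h4, h5⟩
  · obtain ⟨h4, h5⟩ := ordered_good z x y M hz h3 h1 hM (by linarith) (by linarith)
      (by intro h; apply hne; linarith)
    exact ⟨z, Or.inr (Or.inr rfl), hz, h4, h5⟩
  · obtain ⟨h4, h5⟩ := ordered_good y x z M hy h1 h3 hM (by linarith) (by linarith)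
      (by intro h; apply hne; linarith)
    exact ⟨y, Or.inr (Or.inl rfl), hy, h4, h5⟩
  · obtain ⟨h4, h5⟩ := ordered_good y z x M hy h2 h3 hM (by linarith) (by linarith)
      (by intro h; apply hne; linarith)
    exact ⟨y, Or.inr (Or.inl rfl), hy, h4, h5⟩
  · obtain ⟨h4, h5⟩ := ordered_good z y x M hz h2 h1 hM (by linarith) (by linarith)
      (by intro h; apply hne; linarith)
    exact ⟨z, Or.inr (Or.inr rfl), hz, h4, h5⟩
  · obtain ⟨h4, h5⟩ := ordered_good z y x M hz h2 h1 hM (by linarith) (by linarith)
      (by intro h; apply hne; linarith)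
    exact ⟨z, Or.inr (Or.inr rfl), hz, h4, h5⟩

theorem root_pos (x y z : ℝ) (h1 : 0 < x + y + z) (h2 : 0 < x * y + x * z + y * z)
    (h3 : 0 < x * y * z) : 0 < x := by
  by_contra hcon
  push Not at hcon
  have e : x ^ 3 - (x + y + z) * x ^ 2 + (x * y + x * z + y * z) * x - x * y * z = 0 := by ring
  have h4 : x ^ 3 ≤ 0 := by
    have : x ^ 3 = x * x ^ 2 := by ring
    rw [this]
    exact mul_nonpos_of_nonpos_of_nonneg hcon (sq_nonneg x)
  have h5 : 0 ≤ (x + y + z) * x ^ 2 := mul_nonneg h1.le (sq_nonneg x)
  have h6 : (x * y + x * z + y * z) * x ≤ 0 := mul_nonpos_of_nonneg_of_nonpos h2.le hcon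
  linarith

/-- The dichotomy. -/
theorem dichotomy (l u : ℝ) (hl : 0 ≤ l) (hu : l - 1 / 4 ≤ u) :
    (∃ Z : ℂ, 0 < Z.im ∧
      (1 - (l : ℂ) * Z + Z ^ 2) * ((u : ℂ) * (l - 2 * Z) - 1) + Z * (l - 2 * Z) = 0) ∨
    (∃ w : ℝ, 0 < w ∧ w < 1 ∧ 0 < l - 2 * w ∧ 1 < u * (l - 2 * w) ∧
      (1 - l * w + w ^ 2) * (u * (l - 2 * w) - 1) + w * (l - 2 * w) = 0) := by
  by_cases hu0 : u = 0
  · left
    have hl4 : l ≤ 1 / 4 := by linarith
    have hpos : 0 < 3 - l ^ 2 := by nlinarith
    have hs : 0 < Real.sqrt (3 - l ^ 2) := Real.sqrt_pos.2 hpos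
    have hss : Real.sqrt (3 - l ^ 2) ^ 2 = 3 - l ^ 2 := Real.sq_sqrt hpos.le
    refine ⟨⟨l / 3, Real.sqrt (3 - l ^ 2) / 3⟩, by simpa using hs, ?_⟩
    subst hu0
    set q := Real.sqrt (3 - l ^ 2) with hq
    apply Complex.ext
    · simp [Complex.mul_re, Complex.mul_im, pow_two, Complex.sub_re]
      nlinarith
    · simp [Complex.mul_re, Complex.mul_im, pow_two, Complex.sub_re]
      ring
  have hA : -2 * u ≠ 0 := by
    intro h
    apply hu0
    linarith
  rcases real_cubic_dich (-2 * u) (3 * (l * u - 1)) (-(u * (2 + l ^ 2) - 2 * l)) (l * u - 1) hA with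
    ⟨Z, hZ, hZ0⟩ | ⟨x, y, z, hB, hC, hE⟩
  · left
    refine ⟨Z, hZ, ?_⟩
    rw [← hZ0]
    push_cast
    ring
  · -- all roots real
    set s := l * u - 1 with hs
    set e := u * (2 + l ^ 2) - 2 * l with he
    have hB' : 3 * s = 2 * u * (x + y + z) := by linarith
    have hC' : e = 2 * u * (x * y + x * z + y * z) := by linarith
    have hE' : s = 2 * u * (x * y * z) := by linarith
    by_cases hl2 : 2 ≤ l
    · right
      have hupos : 7 / 4 ≤ u := by linarith
      have hspos : 0 < s := by rw [hs]; nlinarith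
      have hepos : 0 < e := by rw [he]; nlinarith
      have h2u : 0 < 2 * u := by linarith
      have e1 : 0 < x + y + z := by
        by_contra hcon
        push Not at hcon
        nlinarith
      have e2 : 0 < x * y + x * z + y * z := by
        by_contra hcon
        push Not at hcon
        nlinarith
      have e3 : 0 < x * y * z := by
        by_contra hcon
        push Not at hcon
        nlinarith
      have px := root_pos x y z e1 e2 e3
      have py := root_pos y x z (by linarith) (by linarith) (by linarith)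
      have pz := root_pos z x y (by linarith) (by linarith) (by linarith)
      set M := s / (2 * u) with hM
      have hMpos : 0 < M := div_pos hspos h2u
      have hMs : 2 * u * M = s := by rw [hM]; field_simp
      have hsum : x + y + z = 3 * M := by
        have : 2 * u * (x + y + z) = 2 * u * (3 * M) := by linarith
        exact mul_left_cancel₀ h2u.ne' this
      have hprod : x * y * z = M := by
        have : 2 * u * (x * y * z) = 2 * u * M := by linarith
        exact mul_left_cancel₀ h2u.ne' this
      have hne : (M - x) * (M - y) * (M - z) ≠ 0 := by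
        intro h0
        have h1 : M ^ 3 - (x + y + z) * M ^ 2 + (x * y + x * z + y * z) * M - x * y * z = 0 := by
          linarith [h0, (by ring : (M - x) * (M - y) * (M - z) =
            M ^ 3 - (x + y + z) * M ^ 2 + (x * y + x * z + y * z) * M - x * y * z)]
        rw [hsum, hprod] at h1
        -- -2 M^3 + e2 M - M = 0  so e2 = 1 + 2 M^2, multiply by 2u
        have h2 : M * (x * y + x * z + y * z - 1 - 2 * M ^ 2) = 0 := by linarith
        have h3 : x * y + x * z + y * z - 1 - 2 * M ^ 2 = 0 := by
          rcases mul_eq_zero.1 h2 with h | h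
          · exact absurd h hMpos.ne'
          · exact h
        have h4 : e = 2 * u * (1 + 2 * M ^ 2) := by
          rw [hC']
          congr 1
          linarith
        -- e * u = 2u^2 + s^2
        have h5 : e * u = 2 * u ^ 2 + s ^ 2 := by
          rw [h4, ← hMs]
          ring
        rw [he, hs] at h5
        nlinarith
      obtain ⟨w, hw, hw0, hw1, hwM⟩ := exists_good x y z M px py pz hMpos hsum hprod hne
      have hroot : (w - x) * (w - y) * (w - z) = 0 := by
        rcases hw with h | h | h <;> rw [h] <;> ring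
      have hw5 : 1 < u * (l - 2 * w) := by
        have h6 : 2 * u * w < 2 * u * M := mul_lt_mul_of_pos_left hwM h2u
        rw [hMs, hs] at h6
        linarith
      have hw6 : 0 < l - 2 * w := by
        by_contra hcon
        push Not at hcon
        nlinarith
      refine ⟨w, hw0, hw1, hw6, hw5, ?_⟩
      have h7 : (1 - l * w + w ^ 2) * (u * (l - 2 * w) - 1) + w * (l - 2 * w) =
        -(2 * u) * w ^ 3 + 3 * s * w ^ 2 - e * w + s := by
        rw [hs, he]; ring
      rw [h7, hB', hC']
      have h8 : s = 2 * u * (x * y * z) := hE'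
      have h9 : -(2 * u) * w ^ 3 + 2 * u * (x + y + z) * w ^ 2 -
          2 * u * (x * y + x * z + y * z) * w + s = -(2 * u) * ((w - x) * (w - y) * (w - z)) := by
        rw [h8]; ring
      rw [h9, hroot, mul_zero]
    · exfalso
      push Not at hl2
      have n1 : 3 * ((x + y + z) * (x * y * z)) ≤ (x * y + x * z + y * z) ^ 2 := by
        nlinarith [sq_nonneg (x * y - x * z), sq_nonneg (x * y - y * z), sq_nonneg (x * z - y * z)]
      have n2 : 3 * (x * y + x * z + y * z) ≤ (x + y + z) ^ 2 := by
        nlinarith [sq_nonneg (x - y), sq_nonneg (x - z), sq_nonneg (y - z)]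
      have h4u : 0 < 4 * u ^ 2 := by positivity
      have N1 : 9 * s ^ 2 ≤ e ^ 2 := by
        have h1 : e ^ 2 = 4 * u ^ 2 * (x * y + x * z + y * z) ^ 2 := by rw [hC']; ring
        have h2 : 9 * s ^ 2 = 4 * u ^ 2 * (3 * ((x + y + z) * (x * y * z))) := by
          have : 9 * s ^ 2 = 3 * (3 * s) * s := by ring
          rw [this, hB']
          have : 3 * (2 * u * (x + y + z)) * s = 3 * (2 * u * (x + y + z)) * (2 * u * (x * y * z)) := by
            rw [← hE']
          rw [this]; ring
        rw [h1, h2]
        exact mul_le_mul_of_nonneg_left n1 h4u.le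
      have N2 : 6 * u * e ≤ 9 * s ^ 2 := by
        have h1 : 9 * s ^ 2 = 4 * u ^ 2 * (x + y + z) ^ 2 := by
          have : 9 * s ^ 2 = (3 * s) ^ 2 := by ring
          rw [this, hB']; ring
        have h2 : 6 * u * e = 4 * u ^ 2 * (3 * (x * y + x * z + y * z)) := by rw [hC']; ring
        rw [h1, h2]
        exact mul_le_mul_of_nonneg_left n2 h4u.le
      rcases lt_or_gt_of_ne hu0 with hneg | hpos
      · -- u < 0
        have hl4 : l < 1 / 4 := by linarith
        have hs0 : s < 0 := by rw [hs]; nlinarith
        have he0 : e ≤ 0 := by rw [he]; nlinarith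
        have h1 : -(3 * s) ≤ -e := by
          by_contra hcon
          push Not at hcon
          have h2 : (-e) ^ 2 < (-(3 * s)) ^ 2 := pow_lt_pow_left₀ hcon (by linarith) two_ne_zero
          nlinarith
        rw [hs, he] at h1
        nlinarith
      · by_cases he0 : 0 < e
        · have h1 : 6 * u ≤ e := by
            by_contra hcon
            push Not at hcon
            nlinarith
          rw [he] at h1
          have h3 : 0 < 4 - l ^ 2 := by nlinarith
          have h4 : 0 < u * (4 - l ^ 2) := mul_pos hpos h3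
          linarith
        · push Not at he0
          have h1 : -(3 * s) ≤ -e := by
            by_cases hs0 : s ≤ 0
            · by_contra hcon
              push Not at hcon
              have h2 : (-e) ^ 2 < (-(3 * s)) ^ 2 :=
                pow_lt_pow_left₀ hcon (by linarith) two_ne_zero
              nlinarith
            · push Not at hs0
              linarith
          by_cases hl1 : l ≤ 1
          · rw [hs, he] at h1
            nlinarith [mul_nonneg hpos.le (mul_nonneg (by linarith : 0 ≤ 1 - l) (by linarith : 0 ≤ 2 - l))]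
          · push Not at hl1
            rw [he] at he0
            nlinarith [mul_pos (by linarith : 0 < l - 1) (by linarith : 0 < l)]

end Pool.Agent.MP_64ae42_mp
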