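import Pool.Agent.Lib.MP_64ae42_mp.Super
import Pool.Agent.Lib.MP_64ae42_mp.CubicLemma

set_option autoImplicit false

namespace Pool.Agent.MP_64ae42_mp

open scoped ENNReal InnerProductSpace NNReal
open Complex

/-- vertices of the dumbbell graph: `none` is the middle vertex -/
abbrev VV := Option Bool
/-- darts: side, is a loop, direction -/
abbrev DD := Bool × Bool × Bool

/-- source -/
def esrc : DD → VV
  | (s, true, _) => some s
  | (s, false, true) => some s
  | (_, false, false) => none

/-- reversal -/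
def erev : DD → DD
  | (s, l, d) => (s, l, !d)

/-- potential -/
noncomputable def epot (δ : ℝ) : VV → ℝ
  | none => δ
  | some _ => 0

/-- dart function depending only on the type -/
def emm {K : Type} (Z Y W : K) : DD → K
  | (_, true, _) => Z
  | (_, false, true) => W
  | (_, false, false) => Y

theorem erev_erev (d : DD) : erev (erev d) = d := by
  rcases d with ⟨s, l, d⟩
  simp [erev]

theorem erev_ne (d : DD) : erev d ≠ d := by
  rcases d with ⟨s, l, d⟩
  simp [erev]

theorem econn : (SimpleGraph.fromRel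
    (fun u v : VV => ∃ d, esrc d = u ∧ esrc (erev d) = v)).Connected := by
  rw [SimpleGraph.connected_iff_exists_forall_reachable]
  refine ⟨none, ?_⟩
  intro w
  rcases w with _ | s
  · exact SimpleGraph.Reachable.refl _
  · apply SimpleGraph.Adj.reachable
    rw [SimpleGraph.fromRel_adj]
    refine ⟨by simp, Or.inl ⟨(s, false, false), rfl, rfl⟩⟩

theorem Aed_loop (ε : ℝ) (hε : ε ^ 2 = 1) (Z Y W : ℂ) (s d : Bool) :
    Aed esrc erev (fun _ => ε) (emm Z Y W) (s, true, d) = Z + W := by
  have hε' : (ε : ℂ) ^ 2 = 1 := by exact_mod_cast hε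
  unfold Aed
  rw [Finset.sum_filter]
  simp only [Fintype.sum_prod_type, Fintype.sum_bool, hε', one_mul]
  cases s <;> cases d <;> simp [esrc, erev, emm]

theorem Aed_in (ε : ℝ) (hε : ε ^ 2 = 1) (Z Y W : ℂ) (s : Bool) :
    Aed esrc erev (fun _ => ε) (emm Z Y W) (s, false, false) = 2 * Z := by
  have hε' : (ε : ℂ) ^ 2 = 1 := by exact_mod_cast hε
  unfold Aed
  rw [Finset.sum_filter]
  simp only [Fintype.sum_prod_type, Fintype.sum_bool, hε', one_mul]
  cases s <;> simp [esrc, erev, emm] <;> ring

theorem Aed_out (ε : ℝ) (hε : ε ^ 2 = 1) (Z Y W : ℂ) (s : Bool) :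
    Aed esrc erev (fun _ => ε) (emm Z Y W) (s, false, true) = Y := by
  have hε' : (ε : ℂ) ^ 2 = 1 := by exact_mod_cast hε
  unfold Aed
  rw [Finset.sum_filter]
  simp only [Fintype.sum_prod_type, Fintype.sum_bool, hε', one_mul]
  cases s <;> simp [esrc, erev, emm]

theorem Art_root (ε : ℝ) (hε : ε ^ 2 = 1) (Z Y W : ℂ) :
    Art esrc (some false) (fun _ => ε) (emm Z Y W) = 2 * Z + W := by
  have hε' : (ε : ℂ) ^ 2 = 1 := by exact_mod_cast hε
  unfold Art
  rw [Finset.sum_filter]
  simp only [Fintype.sum_prod_type, Fintype.sum_bool, hε', one_mul]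
  simp [esrc, emm]
  ring

/-- the operator of the example -/
noncomputable abbrev EJ : L2 (paths esrc erev (some false)) →L[ℂ] L2 (paths esrc erev (some false)) :=
  Jac esrc erev (some false) (fun _ => (1 : ℝ)) (epot (1 / 4))

theorem sol_mem (t : ℝ) (Z : ℂ) (hZ : 0 < Z.im)
    (h : (1 - (t : ℂ) * Z + Z ^ 2) * (((t : ℂ) - 1 / 4) * (t - 2 * Z) - 1) + Z * (t - 2 * Z) = 0) :
    (t : ℂ) ∈ spectrum ℂ EJ := by
  set N : ℂ := t - 2 * Z with hN
  have hNim : N.im < 0 := by
    rw [hN]
    simp
    exact hZ
  have hN0 : N ≠ 0 := by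
    intro h0
    rw [h0] at hNim
    simp at hNim
  set Y : ℂ := N⁻¹ with hY
  have hYN : Y * N = 1 := inv_mul_cancel₀ hN0
  have hYim : 0 < Y.im := by
    rw [hY, Complex.inv_im]
    exact div_pos (by linarith) (Complex.normSq_pos.2 hN0)
  set M : ℂ := (t : ℂ) - 1 / 4 - Y with hM
  have hMim : M.im < 0 := by
    have : M.im = - Y.im := by
      rw [hM]
      simp
    rw [this]
    linarith
  have hM0 : M ≠ 0 := by
    intro h0
    rw [h0] at hMim
    simp at hMim
  set W : ℂ := M⁻¹ with hW
  have hWM : W * M = 1 := inv_mul_cancel₀ hM0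
  have hWim : 0 < W.im := by
    rw [hW, Complex.inv_im]
    exact div_pos (by linarith) (Complex.normSq_pos.2 hM0)
  have hZeq : Z * (t - (Z + W)) = 1 := by
    -- (t - 1/4) N - 1 = N M
    have h1 : ((t : ℂ) - 1 / 4) * N - 1 = N * M := by
      rw [hM]
      linear_combination hYN
    rw [h1] at h
    have h2 : N * M * ((1 - (t : ℂ) * Z + Z ^ 2) + Z * W) = 0 := by
      linear_combination h + (Z * N) * hWM
    rcases mul_eq_zero.1 h2 with h3 | h3
    · exact absurd h3 (mul_ne_zero hN0 hM0)
    · linear_combination -h3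
  apply mem_spectrum_of_solution esrc erev (some false) (fun _ => (1 : ℝ)) (epot (1 / 4))
    (emm Z Y W) t
  · rintro ⟨s, l, d⟩
    cases l
    · cases d
      · rw [Aed_in 1 (by norm_num)]
        simp only [emm, esrc, erev, epot, Bool.not_false]
        push_cast
        linear_combination hYN
      · rw [Aed_out 1 (by norm_num)]
        simp only [emm, esrc, erev, epot, Bool.not_true]
        push_cast
        linear_combination hWM
    · rw [Aed_loop 1 (by norm_num)]
      simp only [emm, esrc, erev, epot]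
      push_cast
      linear_combination hZeq
  · rintro ⟨s, l, d⟩
    cases l
    · cases d
      · exact hYim
      · exact hWim
    · exact hZ
  · rw [Art_root 1 (by norm_num)]
    simp
    linarith

open Classical in
theorem kids_eq (ε : ℝ) (m : DD → ℝ) (x : paths esrc erev (some false)) :
    ((kids esrc erev (some false) (fun _ => ε) m x : ℝ) : ℂ) =
      ∑ d : {d : DD // x.1 ++ [d] ∈ paths esrc erev (some false)}, (ε : ℂ) ^ 2 * ((m d.1 : ℝ) : ℂ) := by
  unfold kids
  push_cast
  rfl

theorem kids_root_val (ε : ℝ) (hε : ε ^ 2 = 1) (Z Y W : ℝ) (x : paths esrc erev (some false))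
    (hx : x.1 = []) :
    kids esrc erev (some false) (fun _ => ε) (emm Z Y W) x = 2 * Z + W := by
  classical
  have h1 := kids_eq ε (emm Z Y W) x
  have h2 := Art_root ε hε (Z : ℂ) (Y : ℂ) (W : ℂ)
  unfold Art at h2
  rw [root_children_sum esrc erev (some false) x hx
    (fun e => (ε : ℂ) ^ 2 * ((emm Z Y W e : ℝ) : ℂ))] at h1
  have h3 : ∀ e : DD, ((emm Z Y W e : ℝ) : ℂ) = emm (Z : ℂ) (Y : ℂ) (W : ℂ) e := by
    rintro ⟨s, l, d⟩
    cases l <;> cases d <;> rfl
  simp only [h3] at h1
  have h4 : ((kids esrc erev (some false) (fun _ => ε) (emm Z Y W) x : ℝ) : ℂ) =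
      2 * (Z : ℂ) + W := by
    rw [h1, ← h2]
    apply Finset.sum_congr _ (fun _ _ => rfl)
    ext e
    simp
  exact_mod_cast h4

theorem kids_last_val (ε : ℝ) (Z Y W : ℝ) (x : paths esrc erev (some false))
    (t : List DD) (c : DD) (hx : x.1 = t ++ [c]) :
    ((kids esrc erev (some false) (fun _ => ε) (emm Z Y W) x : ℝ) : ℂ) =
      Aed esrc erev (fun _ => ε) (emm (Z : ℂ) (Y : ℂ) (W : ℂ)) c := by
  classical
  have h1 := kids_eq ε (emm Z Y W) x
  rw [last_children_sum esrc erev (some false) x t c hx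
    (fun e => (ε : ℂ) ^ 2 * ((emm Z Y W e : ℝ) : ℂ))] at h1
  have h3 : ∀ e : DD, ((emm Z Y W e : ℝ) : ℂ) = emm (Z : ℂ) (Y : ℂ) (W : ℂ) e := by
    rintro ⟨s, l, d⟩
    cases l <;> cases d <;> rfl
  simp only [h3] at h1
  rw [h1]
  unfold Aed
  apply Finset.sum_congr _ (fun _ _ => rfl)
  ext e
  simp

/-- supersolution bound for the example -/
theorem super_example (ε δ : ℝ) (hε : ε ^ 2 = 1) (l w : ℝ) (hw0 : 0 < w) (hw1 : w < 1)
    (hN : 0 < l - 2 * w) (hu : 1 < (l - δ) * (l - 2 * w))
    (h : (1 - l * w + w ^ 2) * ((l - δ) * (l - 2 * w) - 1) + w * (l - 2 * w) = 0)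
    (f : L2 (paths esrc erev (some false))) :
    (⟪f, Jac esrc erev (some false) (fun _ => ε) (epot δ) f⟫_ℂ).re ≤ l * ‖f‖ ^ 2 := by
  set N : ℝ := l - 2 * w with hNdef
  have hN0 : N ≠ 0 := hN.ne'
  set Y : ℝ := N⁻¹ with hY
  have hYpos : 0 < Y := inv_pos.2 hN
  have hYN : Y * N = 1 := inv_mul_cancel₀ hN0
  set M : ℝ := l - δ - Y with hM
  have hNM : (l - δ) * N - 1 = N * M := by
    rw [hM]
    linear_combination hYN
  have hMpos : 0 < M := by
    by_contra hcon
    push Not at hcon
    nlinarith
  set W : ℝ := M⁻¹ with hW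
  have hWpos : 0 < W := inv_pos.2 hMpos
  have hWM : W * M = 1 := inv_mul_cancel₀ hMpos.ne'
  have hZeq : w⁻¹ = l - (w + W) := by
    rw [hNM] at h
    have h2 : N * M * ((1 - l * w + w ^ 2) + w * W) = 0 := by
      linear_combination h + (w * N) * hWM
    rcases mul_eq_zero.1 h2 with h3 | h3
    · exact absurd h3 (mul_ne_zero hN0 hMpos.ne')
    · have h4 : w * (l - (w + W)) = 1 := by linear_combination -h3
      exact (eq_inv_of_mul_eq_one_right h4).symm
  apply upper_bound esrc erev (some false) (fun _ => ε) (epot δ) (emm w Y W)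
  · rintro ⟨s, l, d⟩
    cases l <;> cases d <;> assumption
  · intro x
    rcases eq_nil_or_snoc x.1 with hx | ⟨t, c, hx⟩
    · rw [tgt_nil esrc erev (some false) x hx, kids_root_val ε hε w Y W x hx]
      have e2 : invLast esrc erev (some false) (emm w Y W) x = 0 := by simp [invLast, hx]
      rw [e2]
      simp only [epot]
      have h6 : w ≤ w⁻¹ := by
        have : 1 ≤ w⁻¹ := (one_le_inv₀ hw0).2 hw1.le
        linarith
      rw [hZeq] at h6
      linarith
    · have e2 : invLast esrc erev (some false) (emm w Y W) x = (emm w Y W c)⁻¹ := by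
        simp [invLast, hx]
      have hk := kids_last_val ε w Y W x t c hx
      rw [tgt_snoc esrc erev (some false) x t c hx, e2]
      rcases c with ⟨s, isl, d⟩
      cases isl
      · cases d
        · rw [Aed_in ε hε] at hk
          have hk' : kids esrc erev (some false) (fun _ => ε) (emm w Y W) x = 2 * w := by
            exact_mod_cast hk
          rw [hk']
          simp only [emm, esrc, erev, epot, Bool.not_false]
          rw [hY, inv_inv]
          linarith
        · rw [Aed_out ε hε] at hk
          have hk' : kids esrc erev (some false) (fun _ => ε) (emm w Y W) x = Y := by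
            exact_mod_cast hk
          rw [hk']
          simp only [emm, esrc, erev, epot, Bool.not_true]
          rw [hW, inv_inv]
          linarith
      · rw [Aed_loop ε hε] at hk
        have hk' : kids esrc erev (some false) (fun _ => ε) (emm w Y W) x = w + W := by
          exact_mod_cast hk
        rw [hk']
        simp only [emm, esrc, erev, epot]
        rw [hZeq]
        linarith

end Pool.Agent.MP_64ae42_mp
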