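import Pool.Agent.Lib.MP_64ae42_mp.Example

set_option autoImplicit false

namespace Pool.Agent.MP_64ae42_mp

open scoped ENNReal InnerProductSpace NNReal
open Complex

theorem neg_param (f : L2 (paths esrc erev (some false))) :
    Jac esrc erev (some false) (fun _ => (-1 : ℝ)) (epot (-(1 / 4))) f = - EJ f := by
  classical
  ext x
  rw [lp.coeFn_neg, Pi.neg_apply, Jac_apply, Jac_apply]
  have h1 : epot (-(1 / 4)) (tgt esrc erev (some false) x) =
      - epot (1 / 4) (tgt esrc erev (some false) x) := by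
    rcases tgt esrc erev (some false) x with _ | s
    · rfl
    · simp [epot]
  have h2 : lastW esrc erev (some false) (fun _ => ((-1 : ℝ) : ℂ)) x =
      - lastW esrc erev (some false) (fun _ => ((1 : ℝ) : ℂ)) x := by
    rcases eq_nil_or_snoc x.1 with h | ⟨t, c, h⟩
    · simp [lastW, h]
    · simp [lastW, h]
  rw [h1, h2]
  push_cast
  simp only [neg_mul, one_mul, Finset.sum_neg_distrib]
  ring

/-- spectrum lies to the left of an upper bound of the form -/
theorem le_of_upper (z : ℝ) (h : ∀ f : L2 (paths esrc erev (some false)),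
    (⟪f, EJ f⟫_ℂ).re ≤ z * ‖f‖ ^ 2) (y : ℝ) (hy : (y : ℂ) ∈ spectrum ℂ EJ) : y ≤ z := by
  by_contra hcon
  push Not at hcon
  apply hy
  have hc : 0 < y - z := by linarith
  set c : ℝ≥0 := ⟨y - z, hc.le⟩ with hcdef
  apply ContinuousLinearMap.isUnit_of_forall_le_norm_inner_map _ (c := c) hc
  intro f
  have h1 : ((algebraMap ℂ (L2 (paths esrc erev (some false)) →L[ℂ]
      L2 (paths esrc erev (some false)))) (y : ℂ) - EJ) f = (y : ℂ) • f - EJ f := by
    rw [Algebra.algebraMap_eq_smul_one]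
    rfl
  rw [h1]
  have h2 : (⟪(y : ℂ) • f - EJ f, f⟫_ℂ).re = y * ‖f‖ ^ 2 - (⟪f, EJ f⟫_ℂ).re := by
    rw [inner_sub_left, inner_smul_left, Complex.conj_ofReal, Complex.sub_re,
      inner_self_eq_norm_sq_to_K, ← inner_conj_symm (EJ f) f, Complex.conj_re]
    congr 1
    rw [Complex.re_ofReal_mul]
    congr 1
    norm_cast
  have h3 : (⟪(y : ℂ) • f - EJ f, f⟫_ℂ).re ≤ ‖⟪(y : ℂ) • f - EJ f, f⟫_ℂ‖ :=
    Complex.re_le_norm _
  have h4 := h f
  change ‖f‖ ^ 2 * (y - z) ≤ _
  nlinarith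

theorem ge_of_lower (z : ℝ) (h : ∀ f : L2 (paths esrc erev (some false)),
    z * ‖f‖ ^ 2 ≤ (⟪f, EJ f⟫_ℂ).re) (y : ℝ) (hy : (y : ℂ) ∈ spectrum ℂ EJ) : z ≤ y := by
  by_contra hcon
  push Not at hcon
  apply hy
  have hc : 0 < z - y := by linarith
  set c : ℝ≥0 := ⟨z - y, hc.le⟩ with hcdef
  apply ContinuousLinearMap.isUnit_of_forall_le_norm_inner_map _ (c := c) hc
  intro f
  have h1 : ((algebraMap ℂ (L2 (paths esrc erev (some false)) →L[ℂ]
      L2 (paths esrc erev (some false)))) (y : ℂ) - EJ) f = (y : ℂ) • f - EJ f := by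
    rw [Algebra.algebraMap_eq_smul_one]
    rfl
  rw [h1]
  have h2 : (⟪(y : ℂ) • f - EJ f, f⟫_ℂ).re = y * ‖f‖ ^ 2 - (⟪f, EJ f⟫_ℂ).re := by
    rw [inner_sub_left, inner_smul_left, Complex.conj_ofReal, Complex.sub_re,
      inner_self_eq_norm_sq_to_K, ← inner_conj_symm (EJ f) f, Complex.conj_re]
    congr 1
    rw [Complex.re_ofReal_mul]
    congr 1
    norm_cast
  have h3 : -(⟪(y : ℂ) • f - EJ f, f⟫_ℂ).re ≤ ‖⟪(y : ℂ) • f - EJ f, f⟫_ℂ‖ := by
    have := Complex.abs_re_le_norm (⟪(y : ℂ) • f - EJ f, f⟫_ℂ)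
    have h5 := neg_abs_le (⟪(y : ℂ) • f - EJ f, f⟫_ℂ).re
    linarith
  have h4 := h f
  change ‖f‖ ^ 2 * (z - y) ≤ _
  nlinarith

/-- every real number is in the spectrum or bounds it on one side -/
theorem trichotomy (t : ℝ) : (t : ℂ) ∈ spectrum ℂ EJ ∨
    (∀ y : ℝ, (y : ℂ) ∈ spectrum ℂ EJ → y ≤ t) ∨ (∀ y : ℝ, (y : ℂ) ∈ spectrum ℂ EJ → t ≤ y) := by
  rcases le_total 0 t with ht | ht
  · rcases dichotomy t (t - 1 / 4) ht le_rfl with ⟨Z, hZ, hZ0⟩ | ⟨w, hw0, hw1, hN, hu, h0⟩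
    · left
      apply sol_mem t Z hZ
      push_cast at hZ0
      exact hZ0
    · right; left
      apply le_of_upper t
      intro f
      exact super_example 1 (1 / 4) (by norm_num) t w hw0 hw1 hN hu h0 f
  · rcases dichotomy (-t) (-t + 1 / 4) (by linarith) (by linarith) with
      ⟨Z, hZ, hZ0⟩ | ⟨w, hw0, hw1, hN, hu, h0⟩
    · left
      apply sol_mem t (-(starRingEnd ℂ) Z)
      · simpa using hZ
      · have h1 := congrArg (starRingEnd ℂ) hZ0
        have c2 : (starRingEnd ℂ) 2 = 2 := map_ofNat _ 2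
        have c4 : (starRingEnd ℂ) 4 = 4 := map_ofNat _ 4
        simp [c2, c4] at h1
        linear_combination h1
    · right; right
      apply ge_of_lower t
      intro f
      have h1 := super_example (-1) (-(1 / 4)) (by norm_num) (-t) w hw0 hw1 hN
        (by rw [sub_neg_eq_add]; exact hu) (by rw [sub_neg_eq_add]; exact h0) f
      rw [neg_param, inner_neg_right, Complex.neg_re] at h1
      linarith

theorem EJ_spectrum_real (z : ℂ) (hz : z ∈ spectrum ℂ EJ) : z = (z.re : ℂ) :=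
  (Jac_isSelfAdjoint esrc erev (some false) (fun _ => (1 : ℝ)) (epot (1 / 4))).mem_spectrum_eq_re hz

theorem EJ_preconnected : IsPreconnected (spectrum ℂ EJ) := by
  have h1 : spectrum ℂ EJ = Complex.ofReal '' {t : ℝ | (t : ℂ) ∈ spectrum ℂ EJ} := by
    ext z
    constructor
    · intro hz
      refine ⟨z.re, ?_, (EJ_spectrum_real z hz).symm⟩
      change (z.re : ℂ) ∈ spectrum ℂ EJ
      rw [← EJ_spectrum_real z hz]
      exact hz
    · rintro ⟨t, ht, rfl⟩
      exact ht
  rw [h1]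
  apply IsPreconnected.image _ _ Complex.continuous_ofReal.continuousOn
  apply Set.OrdConnected.isPreconnected
  constructor
  intro x hx y hy t ht
  rcases trichotomy t with h | h | h
  · exact h
  · have h2 : y ≤ t := h y hy
    have h3 : t = y := le_antisymm ht.2 h2
    rw [h3]
    exact hy
  · have h2 : t ≤ x := h x hx
    have h3 : t = x := le_antisymm h2 ht.1
    rw [h3]
    exact hx

end Pool.Agent.MP_64ae42_mp
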