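import Pool.Agent.Lib.MP_64ae42_mp.Tree

set_option autoImplicit false

namespace Pool.Agent.MP_64ae42_mp

open scoped ENNReal InnerProductSpace
open Complex

section jacobi

variable {V D : Type} (src : D → V) (rev : D → D) (v0 : V)

/-- endpoint of a path -/
def tgt (x : paths src rev v0) : V := (x.1.getLast?.map (fun d => src (rev d))).getD v0

/-- multiplication operator -/
noncomputable def mulOp (w : paths src rev v0 → ℂ) (C : ℝ) (hC : ∀ x, ‖w x‖ ≤ C) :
    L2 (paths src rev v0) →L[ℂ] L2 (paths src rev v0) :=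
  wcomp (fun x => x) (fun _ => ()) (fun x y h => (Prod.mk.inj h).1) w C hC

theorem mulOp_apply (w : paths src rev v0 → ℂ) (C : ℝ) (hC : ∀ x, ‖w x‖ ≤ C)
    (f : L2 (paths src rev v0)) (x : paths src rev v0) :
    mulOp src rev v0 w C hC f x = w x * f x := rfl

theorem pot_bound [Fintype V] (b : V → ℝ) (x : paths src rev v0) :
    ‖((b (tgt src rev v0 x) : ℝ) : ℂ)‖ ≤ ∑ v, |b v| := by
  rw [Complex.norm_real, Real.norm_eq_abs]
  exact Finset.single_le_sum (f := fun v => |b v|) (fun i _ => abs_nonneg _) (Finset.mem_univ _)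

/-- The periodic Jacobi operator on the universal cover. -/
noncomputable def Jac [Fintype V] [Fintype D] (a : D → ℝ) (b : V → ℝ) :
    L2 (paths src rev v0) →L[ℂ] L2 (paths src rev v0) :=
  mulOp src rev v0 (fun x => ((b (tgt src rev v0 x) : ℝ) : ℂ)) (∑ v, |b v|)
      (pot_bound src rev v0 b) +
    (T src rev v0 (fun d => (a d : ℂ)) +
      ContinuousLinearMap.adjoint (T src rev v0 (fun d => (a d : ℂ))))

theorem Jac_isSelfAdjoint [Fintype V] [Fintype D] (a : D → ℝ) (b : V → ℝ) :
    IsSelfAdjoint (Jac src rev v0 a b) := by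
  unfold Jac
  apply IsSelfAdjoint.add
  · rw [ContinuousLinearMap.isSelfAdjoint_iff_isSymmetric]
    intro f g
    change ⟪mulOp src rev v0 _ _ _ f, g⟫_ℂ = ⟪f, mulOp src rev v0 _ _ _ g⟫_ℂ
    rw [inner_eq, inner_eq]
    apply tsum_congr
    intro x
    rw [mulOp_apply, mulOp_apply, map_mul, Complex.conj_ofReal]
    ring
  · rw [← ContinuousLinearMap.star_eq_adjoint]
    exact IsSelfAdjoint.add_star_self _

open Classical in
/-- pointwise formula, finite form -/
theorem Jac_apply [Fintype V] [Fintype D] (a : D → ℝ) (b : V → ℝ)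
    (f : L2 (paths src rev v0)) (x : paths src rev v0) :
    Jac src rev v0 a b f x = (b (tgt src rev v0 x) : ℂ) * f x +
      (lastW src rev v0 (fun d => (a d : ℂ)) x * f (par src rev v0 x) +
      ∑ d : {d : D // x.1 ++ [d] ∈ paths src rev v0}, (a d.1 : ℂ) * f (child src rev v0 x d)) := by
  have h : Jac src rev v0 a b f x =
      mulOp src rev v0 (fun x => ((b (tgt src rev v0 x) : ℝ) : ℂ)) (∑ v, |b v|)
      (pot_bound src rev v0 b) f x + (T src rev v0 (fun d => (a d : ℂ)) f x +
      ContinuousLinearMap.adjoint (T src rev v0 (fun d => (a d : ℂ))) f x) := rfl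
  rw [h, mulOp_apply, T_apply, T_adjoint_apply]
  congr 2
  apply Finset.sum_congr rfl
  intro d _
  rw [Complex.conj_ofReal]

open Classical in
theorem Jac_formula [Fintype V] [Fintype D] [dD : DecidableEq D] (a : D → ℝ) (b : V → ℝ)
    (f : L2 (paths src rev v0)) (x : paths src rev v0) :
    Jac src rev v0 a b f x = (b ((x.1.getLast?.map (fun d => src (rev d))).getD v0) : ℂ) * f x +
      ∑' y : paths src rev v0,
        (∑ d : D, if (y.1 = x.1 ++ [d] ∨ x.1 = y.1 ++ [d]) then (a d : ℂ) else 0) * f y := by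
  rw [Jac_apply]
  congr 1
  have hK : ∀ y : paths src rev v0,
      (∑ d : D, if (y.1 = x.1 ++ [d] ∨ x.1 = y.1 ++ [d]) then (a d : ℂ) else 0) * f y =
      (∑ d : D, if x.1 = y.1 ++ [d] then (a d : ℂ) else 0) * f y +
      (∑ d : D, if y.1 = x.1 ++ [d] then (a d : ℂ) else 0) * f y := by
    intro y
    rw [← add_mul, ← Finset.sum_add_distrib]
    congr 1
    apply Finset.sum_congr rfl
    intro d _
    by_cases h1 : y.1 = x.1 ++ [d]
    · have h2 : ¬ (x.1 = y.1 ++ [d]) := by
        intro h3
        have := congrArg List.length h1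
        have := congrArg List.length h3
        simp at *
        omega
      simp [h1, h2]
    · simp [h1]
  have hs1 : Function.support (fun y : paths src rev v0 =>
      (∑ d : D, if x.1 = y.1 ++ [d] then (a d : ℂ) else 0) * f y) ⊆ {par src rev v0 x} := by
    intro y hy
    rw [Function.mem_support] at hy
    have hy1 := left_ne_zero_of_mul hy
    obtain ⟨d, _, hd⟩ := Finset.exists_ne_zero_of_sum_ne_zero hy1
    have hd2 : x.1 = y.1 ++ [d] := by
      by_contra hcon
      simp [hcon] at hd
    rw [Set.mem_singleton_iff]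
    apply Subtype.ext
    simp [par, hd2]
  have hs2 : Function.support (fun y : paths src rev v0 =>
      (∑ d : D, if y.1 = x.1 ++ [d] then (a d : ℂ) else 0) * f y) ⊆
      Set.range (child src rev v0 x) := by
    intro y hy
    rw [Function.mem_support] at hy
    have hy1 := left_ne_zero_of_mul hy
    obtain ⟨d, _, hd⟩ := Finset.exists_ne_zero_of_sum_ne_zero hy1
    have hd2 : y.1 = x.1 ++ [d] := by
      by_contra hcon
      simp [hcon] at hd
    refine ⟨⟨d, ?_⟩, ?_⟩
    · rw [← hd2]; exact y.2
    · apply Subtype.ext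
      simp [child, hd2]
  have hsum1 : Summable (fun y : paths src rev v0 =>
      (∑ d : D, if x.1 = y.1 ++ [d] then (a d : ℂ) else 0) * f y) :=
    summable_of_hasFiniteSupport ((Set.finite_singleton _).subset hs1)
  have hsum2 : Summable (fun y : paths src rev v0 =>
      (∑ d : D, if y.1 = x.1 ++ [d] then (a d : ℂ) else 0) * f y) :=
    summable_of_hasFiniteSupport ((Set.finite_range _).subset hs2)
  rw [tsum_congr hK, hsum1.tsum_add hsum2]
  congr 1
  · rw [tsum_eq_single (par src rev v0 x)]
    · congr 1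
      rcases eq_nil_or_snoc x.1 with h | ⟨t, e, h⟩
      · simp [lastW, h]
      · simp [lastW, par, h]
    · intro y hy
      by_contra hcon
      exact hy (by simpa using hs1 hcon)
  · rw [← (child_inj src rev v0 x).tsum_eq hs2, tsum_fintype]
    apply Finset.sum_congr rfl
    intro d _
    congr 1
    simp [child]

end jacobi

end Pool.Agent.MP_64ae42_mp
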