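import Mathlib

set_option autoImplicit false

namespace Pool.Agent.MP_64ae42_mp

open scoped ENNReal InnerProductSpace
open Complex

/-- Square-summable complex sequences on a set of lists. -/
noncomputable abbrev L2 {D : Type} (S : Set (List D)) := lp (fun _ : S => ℂ) 2

section basic

variable {D : Type} {S : Set (List D)}

theorem summable_sq (f : L2 S) : Summable fun x => ‖f x‖ ^ 2 := by
  have h := (lp.memℓp f).summable (by norm_num)
  simpa using h

theorem norm_sq_eq (f : L2 S) : ‖f‖ ^ 2 = ∑' x, ‖f x‖ ^ 2 := by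
  have h := lp.norm_rpow_eq_tsum (p := 2) (by norm_num) f
  simpa using h

theorem memlp_of_summable_sq (F : S → ℂ) (h : Summable fun x => ‖F x‖ ^ 2) :
    Memℓp (E := fun _ : S => ℂ) F 2 := by
  apply memℓp_gen
  simpa using h

theorem inner_eq (f g : L2 S) : ⟪f, g⟫_ℂ = ∑' x, (starRingEnd ℂ (f x)) * g x := by
  rw [lp.inner_eq_tsum]
  apply tsum_congr
  intro x
  simp [mul_comm]

end basic

/-- Summation along a map with uniformly finite fibres. -/
theorem sum_fiber {X F : Type} [Fintype F] (σ : X → X) (k : X → F)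
    (hinj : Function.Injective fun x => (σ x, k x)) (g : X → ℝ) (hg : ∀ x, 0 ≤ g x)
    (hs : Summable g) :
    (Summable fun x => g (σ x)) ∧ ∑' x, g (σ x) ≤ Fintype.card F * ∑' x, g x := by
  have hG : Summable fun p : X × F => g p.1 := by
    rw [summable_prod_of_nonneg (fun p => hg p.1)]
    refine ⟨fun x => Summable.of_finite, ?_⟩
    simp only [tsum_fintype, Finset.sum_const, nsmul_eq_mul]
    exact hs.mul_left _
  have hGt : ∑' p : X × F, g p.1 = Fintype.card F * ∑' x, g x := by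
    rw [hG.tsum_prod' (fun x => Summable.of_finite)]
    simp only [tsum_fintype, Finset.sum_const, nsmul_eq_mul, Finset.card_univ]
    rw [tsum_mul_left]
  refine ⟨hG.comp_injective hinj, ?_⟩
  rw [← hGt]
  exact tsum_comp_le_tsum_of_inj hG (fun p => hg p.1) hinj

/-- weighted composition: summability and bound -/
theorem wcomp_aux {X F : Type} [Fintype F]
    (σ : X → X) (k : X → F) (hinj : Function.Injective fun x => (σ x, k x))
    (w : X → ℂ) (C : ℝ) (hC : ∀ x, ‖w x‖ ≤ C) (f : X → ℂ) (hf : Summable fun x => ‖f x‖ ^ 2) :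
    (Summable fun x => ‖w x * f (σ x)‖ ^ 2) ∧
      ∑' x, ‖w x * f (σ x)‖ ^ 2 ≤ C ^ 2 * Fintype.card F * ∑' x, ‖f x‖ ^ 2 := by
  obtain ⟨h1, h1t⟩ := sum_fiber σ k hinj (fun x => ‖f x‖ ^ 2) (fun x => sq_nonneg _) hf
  have hle : ∀ x, ‖w x * f (σ x)‖ ^ 2 ≤ C ^ 2 * ‖f (σ x)‖ ^ 2 := by
    intro x
    rw [norm_mul, mul_pow]
    exact mul_le_mul_of_nonneg_right (pow_le_pow_left₀ (norm_nonneg _) (hC x) 2) (sq_nonneg _)
  have h2 : Summable fun x => C ^ 2 * ‖f (σ x)‖ ^ 2 := h1.mul_left _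
  have h3 : Summable fun x => ‖w x * f (σ x)‖ ^ 2 :=
    Summable.of_nonneg_of_le (fun x => sq_nonneg _) hle h2
  refine ⟨h3, ?_⟩
  have h4 : ∑' x, ‖w x * f (σ x)‖ ^ 2 ≤ ∑' x, C ^ 2 * ‖f (σ x)‖ ^ 2 := h3.tsum_le_tsum hle h2
  rw [tsum_mul_left] at h4
  have h5 : C ^ 2 * ∑' x, ‖f (σ x)‖ ^ 2 ≤ C ^ 2 * (Fintype.card F * ∑' x, ‖f x‖ ^ 2) :=
    mul_le_mul_of_nonneg_left h1t (sq_nonneg _)
  rw [mul_assoc]
  exact h4.trans h5

/-- The linear map `(T f) x = w x * f (σ x)`. -/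
noncomputable def wcompLin {D : Type} {S : Set (List D)} {F : Type} [Fintype F]
    (σ : S → S) (k : S → F) (hinj : Function.Injective fun x => (σ x, k x))
    (w : S → ℂ) (C : ℝ) (hC : ∀ x, ‖w x‖ ≤ C) : L2 S →ₗ[ℂ] L2 S where
  toFun := fun f => ⟨fun x => w x * f (σ x),
        memlp_of_summable_sq _ (wcomp_aux σ k hinj w C hC (fun x => f x) (summable_sq f)).1⟩
  map_add' := by
    intro f g
    ext x
    change w x * (f + g : L2 S) (σ x) = w x * f (σ x) + w x * g (σ x)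
    rw [lp.coeFn_add, Pi.add_apply, mul_add]
  map_smul' := by
    intro c f
    ext x
    change w x * (c • f : L2 S) (σ x) = c * (w x * f (σ x))
    rw [lp.coeFn_smul, Pi.smul_apply, smul_eq_mul]
    ring

theorem wcompLin_apply {D : Type} {S : Set (List D)} {F : Type} [Fintype F]
    (σ : S → S) (k : S → F) (hinj : Function.Injective fun x => (σ x, k x))
    (w : S → ℂ) (C : ℝ) (hC : ∀ x, ‖w x‖ ≤ C) (f : L2 S) (x : S) :
    wcompLin σ k hinj w C hC f x = w x * f (σ x) := rfl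

theorem wcompLin_bound {D : Type} {S : Set (List D)} {F : Type} [Fintype F]
    (σ : S → S) (k : S → F) (hinj : Function.Injective fun x => (σ x, k x))
    (w : S → ℂ) (C : ℝ) (hC : ∀ x, ‖w x‖ ≤ C) (f : L2 S) :
    ‖wcompLin σ k hinj w C hC f‖ ≤ Real.sqrt (C ^ 2 * Fintype.card F) * ‖f‖ := by
  have h := (wcomp_aux σ k hinj w C hC (fun x => f x) (summable_sq f)).2
  have h1 : ‖wcompLin σ k hinj w C hC f‖ ^ 2 ≤ C ^ 2 * Fintype.card F * ‖f‖ ^ 2 := by
    rw [norm_sq_eq, norm_sq_eq f]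
    exact h
  have h2 : Real.sqrt (C ^ 2 * Fintype.card F) * ‖f‖ =
      Real.sqrt (C ^ 2 * Fintype.card F * ‖f‖ ^ 2) := by
    rw [Real.sqrt_mul (x := C ^ 2 * (Fintype.card F : ℝ)) (by positivity) (‖f‖ ^ 2),
      Real.sqrt_sq (norm_nonneg f)]
  rw [h2]
  exact Real.le_sqrt_of_sq_le h1

/-- The bounded operator `(T f) x = w x * f (σ x)`. -/
noncomputable def wcomp {D : Type} {S : Set (List D)} {F : Type} [Fintype F]
    (σ : S → S) (k : S → F) (hinj : Function.Injective fun x => (σ x, k x))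
    (w : S → ℂ) (C : ℝ) (hC : ∀ x, ‖w x‖ ≤ C) : L2 S →L[ℂ] L2 S :=
  LinearMap.mkContinuous (wcompLin σ k hinj w C hC) _ (wcompLin_bound σ k hinj w C hC)

theorem wcomp_apply {D : Type} {S : Set (List D)} {F : Type} [Fintype F]
    (σ : S → S) (k : S → F) (hinj : Function.Injective fun x => (σ x, k x))
    (w : S → ℂ) (C : ℝ) (hC : ∀ x, ‖w x‖ ≤ C) (f : L2 S) (x : S) :
    wcomp σ k hinj w C hC f x = w x * f (σ x) := rfl

end Pool.Agent.MP_64ae42_mp
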