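import Pool.Agent.Lib.MP_64ae42_mp.Weyl

set_option autoImplicit false

namespace Pool.Agent.MP_64ae42_mp

open scoped ENNReal InnerProductSpace
open Complex

section resid

variable {V D : Type} (src : D → V) (rev : D → D) (v0 : V)

open Classical in
/-- sum over darts following `c` -/
noncomputable def Aed [Fintype D] (a : D → ℝ) (m : D → ℂ) (c : D) : ℂ :=
  ∑ e ∈ Finset.univ.filter (fun e : D => src e = src (rev c) ∧ e ≠ rev c), (a e : ℂ) ^ 2 * m e

open Classical in
/-- sum over darts at the root -/
noncomputable def Art [Fintype D] (a : D → ℝ) (m : D → ℂ) : ℂ :=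
  ∑ e ∈ Finset.univ.filter (fun e : D => src e = v0), (a e : ℂ) ^ 2 * m e

open Classical in
theorem kids_root [Fintype D] (a : D → ℝ) (m : D → ℂ) (x : paths src rev v0) (hx : x.1 = [])
    (R : ℕ) (hR : 1 ≤ R) :
    ∑ d : {d : D // x.1 ++ [d] ∈ paths src rev v0},
      (a d.1 : ℂ) * trunc src rev v0 a m R (child src rev v0 x d) = Art src v0 a m := by
  unfold Art
  rw [← root_children_sum src rev v0 x hx (fun e => (a e : ℂ) ^ 2 * m e)]
  apply Finset.sum_congr rfl
  intro d _
  rw [trunc_apply, wt_child, len_child]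
  have h1 : x.1.length + 1 ≤ R := by simp [hx]; omega
  rw [if_pos h1]
  have h2 : wt src rev v0 a m x = 1 := by simp [wt, hx]
  rw [h2]
  ring

open Classical in
theorem kids_last [Fintype D] (a : D → ℝ) (m : D → ℂ) (x : paths src rev v0) (t : List D) (c : D)
    (hx : x.1 = t ++ [c]) (R : ℕ) (hR : x.1.length < R) :
    ∑ d : {d : D // x.1 ++ [d] ∈ paths src rev v0},
      (a d.1 : ℂ) * trunc src rev v0 a m R (child src rev v0 x d) =
        wt src rev v0 a m x * Aed src rev a m c := by
  unfold Aed
  rw [← last_children_sum src rev v0 x t c hx (fun e => (a e : ℂ) ^ 2 * m e), Finset.mul_sum]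
  apply Finset.sum_congr rfl
  intro d _
  rw [trunc_apply, wt_child, len_child]
  have h1 : x.1.length + 1 ≤ R := by omega
  rw [if_pos h1]
  ring

open Classical in
theorem kids_out [Fintype D] (a : D → ℝ) (m : D → ℂ) (x : paths src rev v0)
    (R : ℕ) (hR : R ≤ x.1.length) :
    ∑ d : {d : D // x.1 ++ [d] ∈ paths src rev v0},
      (a d.1 : ℂ) * trunc src rev v0 a m R (child src rev v0 x d) = 0 := by
  apply Finset.sum_eq_zero
  intro d _
  rw [trunc_apply, len_child]
  have h1 : ¬ (x.1.length + 1 ≤ R) := by omega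
  rw [if_neg h1, mul_zero]

theorem parent_term [Fintype D] (a : D → ℝ) (m : D → ℂ) (x : paths src rev v0) (t : List D) (c : D)
    (hx : x.1 = t ++ [c]) (R : ℕ) (hR : x.1.length ≤ R + 1) :
    m c * (lastW src rev v0 (fun d => (a d : ℂ)) x * trunc src rev v0 a m R (par src rev v0 x)) =
      wt src rev v0 a m x := by
  rw [lastW_snoc src rev v0 _ x t c hx, trunc_apply, len_par, wt_snoc src rev v0 a m x t c hx]
  have h1 : x.1.length - 1 ≤ R := by omega
  rw [if_pos h1]
  ring

theorem tgt_snoc (x : paths src rev v0) (t : List D) (c : D) (hx : x.1 = t ++ [c]) :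
    tgt src rev v0 x = src (rev c) := by
  simp [tgt, hx]

theorem tgt_nil (x : paths src rev v0) (hx : x.1 = []) : tgt src rev v0 x = v0 := by
  simp [tgt, hx]

variable [Fintype V] [Fintype D] (a : D → ℝ) (b : V → ℝ) (m : D → ℂ) (lam : ℝ)

theorem resid_root (x : paths src rev v0) (hx : x.1 = []) (R : ℕ) (hR : 1 ≤ R) :
    Jac src rev v0 a b (trunc src rev v0 a m R) x - lam * trunc src rev v0 a m R x =
      (b v0 : ℂ) - lam + Art src v0 a m := by
  classical
  rw [Jac_apply, kids_root src rev v0 a m x hx R hR, tgt_nil src rev v0 x hx, trunc_apply]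
  have h1 : x.1.length ≤ R := by simp [hx]
  have h2 : wt src rev v0 a m x = 1 := by simp [wt, hx]
  have h3 : lastW src rev v0 (fun d => (a d : ℂ)) x = 0 := by simp [lastW, hx]
  rw [if_pos h1, h2, h3]
  ring

theorem resid_mid (hm : ∀ c, m c * ((lam : ℂ) - (b (src (rev c)) : ℂ) - Aed src rev a m c) = 1)
    (x : paths src rev v0) (t : List D) (c : D) (hx : x.1 = t ++ [c]) (R : ℕ)
    (hR : x.1.length < R) :
    Jac src rev v0 a b (trunc src rev v0 a m R) x - lam * trunc src rev v0 a m R x = 0 := by
  classical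
  have hmc : m c ≠ 0 := left_ne_zero_of_mul (by rw [hm c]; exact one_ne_zero)
  have hp := parent_term src rev v0 a m x t c hx R (by omega)
  rw [Jac_apply, kids_last src rev v0 a m x t c hx R hR, tgt_snoc src rev v0 x t c hx]
  apply (mul_eq_zero.1 (_ : m c * _ = 0)).resolve_left hmc
  have h1 : x.1.length ≤ R := by omega
  have h2 : trunc src rev v0 a m R x = wt src rev v0 a m x := by
    rw [trunc_apply, if_pos h1]
  rw [h2]
  have h3 := hm c
  linear_combination hp - wt src rev v0 a m x * h3

theorem resid_R (hm : ∀ c, m c * ((lam : ℂ) - (b (src (rev c)) : ℂ) - Aed src rev a m c) = 1)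
    (x : paths src rev v0) (t : List D) (c : D) (hx : x.1 = t ++ [c]) (R : ℕ)
    (hR : x.1.length = R) :
    Jac src rev v0 a b (trunc src rev v0 a m R) x - lam * trunc src rev v0 a m R x =
      - Aed src rev a m c * wt src rev v0 a m x := by
  classical
  have hmc : m c ≠ 0 := left_ne_zero_of_mul (by rw [hm c]; exact one_ne_zero)
  have hp := parent_term src rev v0 a m x t c hx R (by omega)
  rw [Jac_apply, kids_out src rev v0 a m x R (by omega), tgt_snoc src rev v0 x t c hx]
  apply mul_left_cancel₀ hmc
  have h1 : x.1.length ≤ R := by omega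
  have h2 : trunc src rev v0 a m R x = wt src rev v0 a m x := by
    rw [trunc_apply, if_pos h1]
  rw [h2]
  have h3 := hm c
  linear_combination hp - wt src rev v0 a m x * h3

theorem resid_R1 (hm : ∀ c, m c * ((lam : ℂ) - (b (src (rev c)) : ℂ) - Aed src rev a m c) = 1)
    (x : paths src rev v0) (t : List D) (c : D) (hx : x.1 = t ++ [c]) (R : ℕ)
    (hR : x.1.length = R + 1) :
    Jac src rev v0 a b (trunc src rev v0 a m R) x - lam * trunc src rev v0 a m R x =
      (m c)⁻¹ * wt src rev v0 a m x := by
  classical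
  have hmc : m c ≠ 0 := left_ne_zero_of_mul (by rw [hm c]; exact one_ne_zero)
  have hp := parent_term src rev v0 a m x t c hx R (by omega)
  rw [Jac_apply, kids_out src rev v0 a m x R (by omega)]
  apply mul_left_cancel₀ hmc
  have h1 : ¬ (x.1.length ≤ R) := by omega
  have h2 : trunc src rev v0 a m R x = 0 := by
    rw [trunc_apply, if_neg h1]
  rw [h2, mul_inv_cancel_left₀ hmc]
  linear_combination hp

theorem resid_out (x : paths src rev v0) (R : ℕ) (hR : R + 1 < x.1.length) :
    Jac src rev v0 a b (trunc src rev v0 a m R) x - lam * trunc src rev v0 a m R x = 0 := by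
  classical
  rw [Jac_apply, kids_out src rev v0 a m x R (by omega)]
  have h2 : trunc src rev v0 a m R x = 0 := by
    rw [trunc_apply, if_neg (by omega)]
  have h3 : trunc src rev v0 a m R (par src rev v0 x) = 0 := by
    rw [trunc_apply, if_neg (by rw [len_par]; omega)]
  rw [h2, h3]
  ring

end resid

end Pool.Agent.MP_64ae42_mp
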