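import Pool.Agent.Lib.MP_64ae42_mp.Crit

set_option autoImplicit false

namespace Pool.Agent.MP_64ae42_mp

open scoped ENNReal InnerProductSpace
open Complex

section super

variable {V D : Type} (src : D → V) (rev : D → D) (v0 : V)
variable [Fintype V] [Fintype D] (a : D → ℝ) (b : V → ℝ) (m : D → ℝ)

theorem mulOp_selfadjoint (w : paths src rev v0 → ℂ) (C : ℝ) (hC : ∀ x, ‖w x‖ ≤ C)
    (hw : ∀ x, (starRingEnd ℂ) (w x) = w x) :
    ContinuousLinearMap.adjoint (mulOp src rev v0 w C hC) = mulOp src rev v0 w C hC := by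
  have h : IsSelfAdjoint (mulOp src rev v0 w C hC) := by
    rw [ContinuousLinearMap.isSelfAdjoint_iff_isSymmetric]
    intro f g
    change ⟪mulOp src rev v0 _ _ _ f, g⟫_ℂ = ⟪f, mulOp src rev v0 _ _ _ g⟫_ℂ
    rw [inner_eq, inner_eq]
    apply tsum_congr
    intro x
    rw [mulOp_apply, mulOp_apply, map_mul, hw]
    ring
  exact h

/-- `P` operator -/
noncomputable def Pop : L2 (paths src rev v0) →L[ℂ] L2 (paths src rev v0) :=
  mulOp src rev v0 (lastW src rev v0 (fun d => ((Real.sqrt ((m d)⁻¹) : ℝ) : ℂ)))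
    (∑ d, ‖((Real.sqrt ((m d)⁻¹) : ℝ) : ℂ)‖) (lastW_bound src rev v0 _)

/-- `Q` operator -/
noncomputable def Qop : L2 (paths src rev v0) →L[ℂ] L2 (paths src rev v0) :=
  T src rev v0 (fun d => ((a d * Real.sqrt (m d) : ℝ) : ℂ))

theorem lastW_real_conj (g : D → ℝ) (x : paths src rev v0) :
    (starRingEnd ℂ) (lastW src rev v0 (fun d => ((g d : ℝ) : ℂ)) x) =
      lastW src rev v0 (fun d => ((g d : ℝ) : ℂ)) x := by
  rcases eq_nil_or_snoc x.1 with h | ⟨t, c, h⟩
  · simp [lastW, h]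
  · rw [lastW_snoc src rev v0 _ x t c h, Complex.conj_ofReal]

theorem Pop_adjoint : ContinuousLinearMap.adjoint (Pop src rev v0 m) = Pop src rev v0 m :=
  mulOp_selfadjoint src rev v0 _ _ _ (lastW_real_conj src rev v0 _)

open Classical in
/-- children sum -/
noncomputable def kids (x : paths src rev v0) : ℝ :=
  ∑ d : {d : D // x.1 ++ [d] ∈ paths src rev v0}, (a d.1) ^ 2 * m d.1

/-- inverse last -/
noncomputable def invLast (x : paths src rev v0) : ℝ :=
  (x.1.getLast?.map (fun d => (m d)⁻¹)).getD 0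

theorem key_identity (hpos : ∀ d, 0 < m d) (f : L2 (paths src rev v0)) (x : paths src rev v0) :
    (Jac src rev v0 a b + ContinuousLinearMap.adjoint (Pop src rev v0 m - Qop src rev v0 a m) *
      (Pop src rev v0 m - Qop src rev v0 a m)) f x =
      ((b (tgt src rev v0 x) + invLast src rev v0 m x + kids src rev v0 a m x : ℝ) : ℂ) * f x := by
  classical
  set g : L2 (paths src rev v0) := (Pop src rev v0 m - Qop src rev v0 a m) f with hg
  have h1 : (Jac src rev v0 a b + ContinuousLinearMap.adjoint (Pop src rev v0 m - Qop src rev v0 a m) *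
      (Pop src rev v0 m - Qop src rev v0 a m)) f x =
      Jac src rev v0 a b f x + (Pop src rev v0 m g x -
        ContinuousLinearMap.adjoint (Qop src rev v0 a m) g x) := by
    rw [map_sub, Pop_adjoint]
    rfl
  have hgx : ∀ y, g y = lastW src rev v0 (fun d => ((Real.sqrt ((m d)⁻¹) : ℝ) : ℂ)) y * f y -
      lastW src rev v0 (fun d => ((a d * Real.sqrt (m d) : ℝ) : ℂ)) y * f (par src rev v0 y) := by
    intro y
    rfl
  have h2 : Pop src rev v0 m g x =
      lastW src rev v0 (fun d => ((Real.sqrt ((m d)⁻¹) : ℝ) : ℂ)) x * g x := rfl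
  have h3 : ContinuousLinearMap.adjoint (Qop src rev v0 a m) g x =
      ∑ d : {d : D // x.1 ++ [d] ∈ paths src rev v0}, ((a d.1 : ℂ) * f (child src rev v0 x d) -
        (((a d.1) ^ 2 * m d.1 : ℝ) : ℂ) * f x) := by
    unfold Qop
    rw [T_adjoint_apply]
    apply Finset.sum_congr rfl
    intro d _
    rw [hgx, lastW_child, lastW_child, par_child, Complex.conj_ofReal]
    have hs1 : Real.sqrt (m d.1) * Real.sqrt ((m d.1)⁻¹) = 1 := by
      rw [← Real.sqrt_mul (hpos d.1).le, mul_inv_cancel₀ (hpos d.1).ne', Real.sqrt_one]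
    have hs2 : Real.sqrt (m d.1) * Real.sqrt (m d.1) = m d.1 := Real.mul_self_sqrt (hpos d.1).le
    have hs1' : ((Real.sqrt (m d.1) : ℝ) : ℂ) * ((Real.sqrt ((m d.1)⁻¹) : ℝ) : ℂ) = 1 := by
      rw [← Complex.ofReal_mul, hs1, Complex.ofReal_one]
    have hs2' : ((Real.sqrt (m d.1) : ℝ) : ℂ) * ((Real.sqrt (m d.1) : ℝ) : ℂ) = (m d.1 : ℂ) := by
      rw [← Complex.ofReal_mul, hs2]
    push_cast
    linear_combination ((a d.1 : ℂ) * f (child src rev v0 x d)) * hs1' -
      ((a d.1 : ℂ) ^ 2 * f x) * hs2'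
  rw [h1, Jac_apply, h2, h3, Finset.sum_sub_distrib, ← Finset.sum_mul]
  have h4 : ∑ d : {d : D // x.1 ++ [d] ∈ paths src rev v0}, (((a d.1) ^ 2 * m d.1 : ℝ) : ℂ) =
      ((kids src rev v0 a m x : ℝ) : ℂ) := by
    unfold kids
    push_cast
    rfl
  rw [h4, hgx]
  rcases eq_nil_or_snoc x.1 with h | ⟨t, c, h⟩
  · have e1 : ∀ g : D → ℂ, lastW src rev v0 g x = 0 := by
      intro g; simp [lastW, h]
    have e2 : invLast src rev v0 m x = 0 := by simp [invLast, h]
    rw [e1, e1, e1, e2]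
    push_cast
    ring
  · have e2 : invLast src rev v0 m x = (m c)⁻¹ := by simp [invLast, h]
    rw [lastW_snoc src rev v0 _ x t c h, lastW_snoc src rev v0 _ x t c h,
      lastW_snoc src rev v0 _ x t c h, e2]
    have hs1 : Real.sqrt (m c) * Real.sqrt ((m c)⁻¹) = 1 := by
      rw [← Real.sqrt_mul (hpos c).le, mul_inv_cancel₀ (hpos c).ne', Real.sqrt_one]
    have hs2 : Real.sqrt ((m c)⁻¹) * Real.sqrt ((m c)⁻¹) = (m c)⁻¹ :=
      Real.mul_self_sqrt (inv_pos.2 (hpos c)).le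
    have hs1' : ((Real.sqrt (m c) : ℝ) : ℂ) * ((Real.sqrt ((m c)⁻¹) : ℝ) : ℂ) = 1 := by
      rw [← Complex.ofReal_mul, hs1, Complex.ofReal_one]
    have hs2' : ((Real.sqrt ((m c)⁻¹) : ℝ) : ℂ) * ((Real.sqrt ((m c)⁻¹) : ℝ) : ℂ) =
        (((m c)⁻¹ : ℝ) : ℂ) := by
      rw [← Complex.ofReal_mul, hs2]
    push_cast at hs2' ⊢
    linear_combination (f x) * hs2' - ((a c : ℂ) * f (par src rev v0 x)) * hs1'

/-- upper bound from a positive supersolution -/
theorem upper_bound (hpos : ∀ d, 0 < m d) (z : ℝ)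
    (hG : ∀ x : paths src rev v0,
      b (tgt src rev v0 x) + invLast src rev v0 m x + kids src rev v0 a m x ≤ z)
    (f : L2 (paths src rev v0)) :
    (⟪f, Jac src rev v0 a b f⟫_ℂ).re ≤ z * ‖f‖ ^ 2 := by
  set W := Pop src rev v0 m - Qop src rev v0 a m with hW
  set L := Jac src rev v0 a b + ContinuousLinearMap.adjoint W * W with hL
  have h1 : ⟪f, L f⟫_ℂ = ⟪f, Jac src rev v0 a b f⟫_ℂ + ⟪f, (ContinuousLinearMap.adjoint W * W) f⟫_ℂ := by
    rw [hL, ContinuousLinearMap.add_apply, inner_add_right]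
  have h2 : ⟪f, (ContinuousLinearMap.adjoint W * W) f⟫_ℂ = ((‖W f‖ ^ 2 : ℝ) : ℂ) := by
    rw [ContinuousLinearMap.mul_apply, ContinuousLinearMap.adjoint_inner_right,
      inner_self_eq_norm_sq_to_K]
    norm_cast
  have h3 : (⟪f, L f⟫_ℂ).re = ∑' x, (b (tgt src rev v0 x) + invLast src rev v0 m x +
      kids src rev v0 a m x) * ‖f x‖ ^ 2 := by
    have hs := lp.summable_inner (𝕜 := ℂ) f (L f)
    rw [lp.inner_eq_tsum, Complex.re_tsum hs]
    apply tsum_congr
    intro x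
    rw [hL, key_identity src rev v0 a b m hpos f x]
    have h5 : ((‖f x‖ ^ 2 : ℝ) : ℂ) = (starRingEnd ℂ (f x)) * f x := by
      rw [← Complex.normSq_eq_norm_sq, Complex.normSq_eq_conj_mul_self]
    have h6 : ⟪f x, ((b (tgt src rev v0 x) + invLast src rev v0 m x +
      kids src rev v0 a m x : ℝ) : ℂ) * f x⟫_ℂ = ((b (tgt src rev v0 x) + invLast src rev v0 m x +
      kids src rev v0 a m x : ℝ) : ℂ) * ((‖f x‖ ^ 2 : ℝ) : ℂ) := by
      rw [h5]
      simp only [RCLike.inner_apply]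
      ring
    rw [h6, ← Complex.ofReal_mul, Complex.ofReal_re]
  have h7 : Summable fun x => (b (tgt src rev v0 x) + invLast src rev v0 m x +
      kids src rev v0 a m x) * ‖f x‖ ^ 2 := by
    have hs := lp.summable_inner (𝕜 := ℂ) f (L f)
    have hs2 := (Complex.hasSum_re hs.hasSum).summable
    apply hs2.congr
    intro x
    rw [hL, key_identity src rev v0 a b m hpos f x]
    have h5 : ((‖f x‖ ^ 2 : ℝ) : ℂ) = (starRingEnd ℂ (f x)) * f x := by
      rw [← Complex.normSq_eq_norm_sq, Complex.normSq_eq_conj_mul_self]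
    have h6 : ⟪f x, ((b (tgt src rev v0 x) + invLast src rev v0 m x +
      kids src rev v0 a m x : ℝ) : ℂ) * f x⟫_ℂ = ((b (tgt src rev v0 x) + invLast src rev v0 m x +
      kids src rev v0 a m x : ℝ) : ℂ) * ((‖f x‖ ^ 2 : ℝ) : ℂ) := by
      rw [h5]
      simp only [RCLike.inner_apply]
      ring
    rw [h6, ← Complex.ofReal_mul, Complex.ofReal_re]
  have h8 : (⟪f, L f⟫_ℂ).re ≤ z * ‖f‖ ^ 2 := by
    rw [h3, norm_sq_eq, ← tsum_mul_left]
    apply h7.tsum_le_tsum _ ((summable_sq f).mul_left z)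
    intro x
    exact mul_le_mul_of_nonneg_right (hG x) (sq_nonneg _)
  have h9 : (⟪f, L f⟫_ℂ).re = (⟪f, Jac src rev v0 a b f⟫_ℂ).re + ‖W f‖ ^ 2 := by
    rw [h1, h2, Complex.add_re, Complex.ofReal_re]
  have h10 : 0 ≤ ‖W f‖ ^ 2 := sq_nonneg _
  linarith

end super

end Pool.Agent.MP_64ae42_mp
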