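import Pool.Agent.Lib.MP_64ae42_mp.Ops

set_option autoImplicit false

namespace Pool.Agent.MP_64ae42_mp

open scoped ENNReal InnerProductSpace
open Complex

section tree

variable {V D : Type} (src : D → V) (rev : D → D) (v0 : V)

/-- Non-backtracking paths starting at `v0`. -/
def paths : Set (List D) :=
  {l | (∀ d ∈ l.head?, src d = v0) ∧
         ∀ (i : ℕ) (d e : D), l[i]? = some d → l[i+1]? = some e →
           (src e = src (rev d) ∧ e ≠ rev d)}

/-- `d` may be appended to the path `l`. -/
def Fol (l : List D) (d : D) : Prop :=
  (l.getLast? = none → src d = v0) ∧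
    (∀ c, l.getLast? = some c → src d = src (rev c) ∧ d ≠ rev c)

theorem nil_mem_paths : ([] : List D) ∈ paths src rev v0 := by
  simp [paths]

theorem append_mem_paths_iff (l : List D) (d : D) :
    l ++ [d] ∈ paths src rev v0 ↔ l ∈ paths src rev v0 ∧ Fol src rev v0 l d := by
  constructor
  · rintro ⟨h1, h2⟩
    refine ⟨⟨?_, ?_⟩, ?_, ?_⟩
    · intro c hc
      apply h1
      cases l with
      | nil => simp at hc
      | cons a t => simpa using hc
    · intro i c e hc he
      apply h2 i c e
      · have hi : i < l.length := by
          by_contra hcon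
          rw [List.getElem?_eq_none (by omega)] at hc
          simp at hc
        rw [List.getElem?_append_left hi]
        exact hc
      · have hi : i + 1 < l.length := by
          by_contra hcon
          rw [List.getElem?_eq_none (by omega)] at he
          simp at he
        rw [List.getElem?_append_left hi]
        exact he
    · intro hn
      rw [List.getLast?_eq_none_iff] at hn
      subst hn
      apply h1
      simp
    · intro c hc
      have hl : l ≠ [] := by
        rintro rfl
        simp at hc
      have hlen : 0 < l.length := List.length_pos_iff.mpr hl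
      apply h2 (l.length - 1) c d
      · rw [List.getElem?_append_left (by omega)]
        rw [List.getLast?_eq_getElem?] at hc
        exact hc
      · rw [List.getElem?_append_right (by omega)]
        have : l.length - 1 + 1 - l.length = 0 := by omega
        rw [this]
        simp
  · rintro ⟨⟨h1, h2⟩, h3, h4⟩
    refine ⟨?_, ?_⟩
    · intro c hc
      cases l with
      | nil =>
        simp at hc
        subst hc
        apply h3
        simp
      | cons a t =>
        apply h1
        simpa using hc
    · intro i c e hc he
      by_cases hi : i + 1 < l.length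
      · rw [List.getElem?_append_left hi] at he
        rw [List.getElem?_append_left (by omega)] at hc
        exact h2 i c e hc he
      · have hi2 : i + 1 = l.length := by
          by_contra hcon
          rw [List.getElem?_eq_none (by simp; omega)] at he
          simp at he
        rw [List.getElem?_append_left (by omega)] at hc
        rw [List.getElem?_append_right (by omega)] at he
        have h0 : i + 1 - l.length = 0 := by omega
        rw [h0] at he
        simp at he
        subst he
        apply h4
        rw [List.getLast?_eq_getElem?]
        have : l.length - 1 = i := by omega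
        rw [this]
        exact hc

theorem eq_nil_or_snoc (l : List D) : l = [] ∨ ∃ (t : List D) (d : D), l = t ++ [d] := by
  rcases List.eq_nil_or_concat l with h | ⟨t, d, h⟩
  · left; exact h
  · right; exact ⟨t, d, by simpa using h⟩

theorem dropLast_mem_paths (l : List D) (h : l ∈ paths src rev v0) :
    l.dropLast ∈ paths src rev v0 := by
  rcases eq_nil_or_snoc l with rfl | ⟨t, d, rfl⟩
  · simpa using h
  · rw [List.dropLast_concat]
    exact ((append_mem_paths_iff src rev v0 t d).1 h).1

/-- The parent of a path. -/
def par (x : paths src rev v0) : paths src rev v0 :=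
  ⟨x.1.dropLast, dropLast_mem_paths src rev v0 x.1 x.2⟩

/-- weight of the last edge -/
noncomputable def lastW (c : D → ℂ) (x : paths src rev v0) : ℂ :=
  (x.1.getLast?.map c).getD 0

theorem par_inj : Function.Injective fun x : paths src rev v0 => (par src rev v0 x, x.1.getLast?) := by
  rintro ⟨x, hx⟩ ⟨y, hy⟩ h
  simp only [par, Prod.mk.injEq, Subtype.mk.injEq] at h
  obtain ⟨h1, h2⟩ := h
  apply Subtype.ext
  change x = y
  rcases eq_nil_or_snoc x with rfl | ⟨t, d, rfl⟩
  · rcases eq_nil_or_snoc y with rfl | ⟨t', d', rfl⟩
    · rfl
    · simp at h2
  · rcases eq_nil_or_snoc y with rfl | ⟨t', d', rfl⟩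
    · simp at h2
    · simp at h1 h2
      rw [h1, h2]

variable [Fintype D]

theorem lastW_bound (c : D → ℂ) (x : paths src rev v0) :
    ‖lastW src rev v0 c x‖ ≤ ∑ d, ‖c d‖ := by
  unfold lastW
  rcases hx : x.1.getLast? with _ | d
  · simp
    exact Finset.sum_nonneg fun i _ => norm_nonneg _
  · simp
    exact Finset.single_le_sum (f := fun d => ‖c d‖) (fun i _ => norm_nonneg _) (Finset.mem_univ d)

/-- The parent operator with edge weights `c`. -/
noncomputable def T (c : D → ℂ) : L2 (paths src rev v0) →L[ℂ] L2 (paths src rev v0) :=
  wcomp (par src rev v0) (fun x => x.1.getLast?) (par_inj src rev v0) (lastW src rev v0 c)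
    (∑ d, ‖c d‖) (lastW_bound src rev v0 c)

theorem T_apply (c : D → ℂ) (f : L2 (paths src rev v0)) (x : paths src rev v0) :
    T src rev v0 c f x = lastW src rev v0 c x * f (par src rev v0 x) := rfl

/-- The child of a path. -/
def child (y : paths src rev v0) (d : {d : D // y.1 ++ [d] ∈ paths src rev v0}) :
    paths src rev v0 := ⟨y.1 ++ [d.1], d.2⟩

theorem child_inj (y : paths src rev v0) : Function.Injective (child src rev v0 y) := by
  rintro ⟨d, hd⟩ ⟨e, he⟩ h
  simp [child] at h
  apply Subtype.ext
  exact h

theorem par_child (y : paths src rev v0) (d : {d : D // y.1 ++ [d] ∈ paths src rev v0}) :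
    par src rev v0 (child src rev v0 y d) = y := by
  apply Subtype.ext
  simp [par, child]

theorem lastW_child (c : D → ℂ) (y : paths src rev v0)
    (d : {d : D // y.1 ++ [d] ∈ paths src rev v0}) :
    lastW src rev v0 c (child src rev v0 y d) = c d.1 := by
  simp [lastW, child]

open Classical in
theorem T_adjoint_apply (c : D → ℂ) (f : L2 (paths src rev v0)) (y : paths src rev v0) :
    ContinuousLinearMap.adjoint (T src rev v0 c) f y =
      ∑ d : {d : D // y.1 ++ [d] ∈ paths src rev v0},
        (starRingEnd ℂ (c d.1)) * f (child src rev v0 y d) := by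
  have h1 : ContinuousLinearMap.adjoint (T src rev v0 c) f y =
      ⟪lp.single 2 y (1 : ℂ), ContinuousLinearMap.adjoint (T src rev v0 c) f⟫_ℂ := by
    rw [lp.inner_single_left]
    simp
  rw [h1, ContinuousLinearMap.adjoint_inner_right, inner_eq]
  have hsupp : (Function.support fun x : paths src rev v0 =>
      (starRingEnd ℂ (T src rev v0 c (lp.single 2 y (1 : ℂ)) x)) * f x) ⊆
      Set.range (child src rev v0 y) := by
    intro x hx
    rw [Function.mem_support] at hx
    have hx1 : T src rev v0 c (lp.single 2 y (1 : ℂ)) x ≠ 0 := by
      intro h0
      rw [h0] at hx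
      simp at hx
    rw [T_apply] at hx1
    have hx2 : lastW src rev v0 c x ≠ 0 := left_ne_zero_of_mul hx1
    have hx3 : (lp.single 2 y (1 : ℂ) : L2 (paths src rev v0)) (par src rev v0 x) ≠ 0 :=
      right_ne_zero_of_mul hx1
    have hp : par src rev v0 x = y := by
      by_contra hne
      apply hx3
      rw [lp.single_apply, Pi.single_eq_of_ne hne]
    rcases eq_nil_or_snoc x.1 with h | ⟨t, d, h⟩
    · exfalso
      apply hx2
      simp [lastW, h]
    · have ht : y.1 = t := by
        rw [← hp]
        simp [par, h]
      refine ⟨⟨d, ?_⟩, ?_⟩
      · rw [ht, ← h]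
        exact x.2
      · apply Subtype.ext
        simp only [child]
        rw [ht, ← h]
  rw [← (child_inj src rev v0 y).tsum_eq hsupp, tsum_fintype]
  apply Finset.sum_congr rfl
  intro d _
  rw [T_apply, lastW_child, par_child, lp.single_apply, Pi.single_eq_same, mul_one]

end tree

end Pool.Agent.MP_64ae42_mp
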