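import Pool.Agent.Lib.MP_64ae42_mp.Jacobi

set_option autoImplicit false

namespace Pool.Agent.MP_64ae42_mp

open scoped ENNReal InnerProductSpace
open Complex

section weyl

variable {V D : Type} (src : D → V) (rev : D → D) (v0 : V)

theorem root_children_sum [Fintype D] (x : paths src rev v0) (hx : x.1 = []) (g : D → ℂ)
    [DecidablePred fun d : D => x.1 ++ [d] ∈ paths src rev v0]
    [DecidablePred fun d : D => src d = v0] :
    ∑ d : {d : D // x.1 ++ [d] ∈ paths src rev v0}, g d.1 =
      ∑ d ∈ Finset.univ.filter (fun d : D => src d = v0), g d := by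
  symm
  apply Finset.sum_subtype
  intro d
  rw [append_mem_paths_iff]
  simp [hx, Fol, nil_mem_paths]

theorem last_children_sum [Fintype D] (x : paths src rev v0) (t : List D) (c : D)
    (hx : x.1 = t ++ [c]) (g : D → ℂ)
    [DecidablePred fun d : D => x.1 ++ [d] ∈ paths src rev v0]
    [DecidablePred fun d : D => src d = src (rev c) ∧ d ≠ rev c] :
    ∑ d : {d : D // x.1 ++ [d] ∈ paths src rev v0}, g d.1 =
      ∑ d ∈ Finset.univ.filter (fun d : D => src d = src (rev c) ∧ d ≠ rev c), g d := by
  symm
  apply Finset.sum_subtype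
  intro d
  rw [append_mem_paths_iff]
  have hx2 := x.2
  simp only [hx, Fol] at hx2 ⊢
  simp [hx2]

/-- the product weight -/
noncomputable def wt (a : D → ℝ) (m : D → ℂ) (x : paths src rev v0) : ℂ :=
  (x.1.map (fun d => (a d : ℂ) * m d)).prod

theorem wt_child (a : D → ℝ) (m : D → ℂ) (x : paths src rev v0)
    (d : {d : D // x.1 ++ [d] ∈ paths src rev v0}) :
    wt src rev v0 a m (child src rev v0 x d) = wt src rev v0 a m x * ((a d.1 : ℂ) * m d.1) := by
  simp [wt, child]

theorem wt_snoc (a : D → ℝ) (m : D → ℂ) (x : paths src rev v0) (t : List D) (c : D)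
    (hx : x.1 = t ++ [c]) :
    wt src rev v0 a m x = wt src rev v0 a m (par src rev v0 x) * ((a c : ℂ) * m c) := by
  simp [wt, par, hx]

theorem lastW_snoc (g : D → ℂ) (x : paths src rev v0) (t : List D) (c : D)
    (hx : x.1 = t ++ [c]) : lastW src rev v0 g x = g c := by
  simp [lastW, hx]

theorem len_child (x : paths src rev v0)
    (d : {d : D // x.1 ++ [d] ∈ paths src rev v0}) :
    (child src rev v0 x d).1.length = x.1.length + 1 := by
  simp [child]

theorem len_par (x : paths src rev v0) :
    (par src rev v0 x).1.length = x.1.length - 1 := by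
  simp [par]

theorem finite_len_le [Fintype D] (R : ℕ) : {x : paths src rev v0 | x.1.length ≤ R}.Finite := by
  have h : {l : List D | l.length ≤ R}.Finite := List.finite_length_le D R
  exact Set.Finite.preimage (Subtype.val_injective.injOn) h

theorem trunc_summable [Fintype D] (a : D → ℝ) (m : D → ℂ) (R : ℕ) :
    Summable fun x : paths src rev v0 =>
      ‖(if x.1.length ≤ R then wt src rev v0 a m x else 0 : ℂ)‖ ^ 2 := by
  apply summable_of_hasFiniteSupport
  apply (finite_len_le src rev v0 R).subset
  intro x hx
  rw [Function.mem_support] at hx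
  by_contra hcon
  simp only [Set.mem_setOf_eq] at hcon
  simp [hcon] at hx

/-- truncated product function -/
noncomputable def trunc [Fintype D] (a : D → ℝ) (m : D → ℂ) (R : ℕ) : L2 (paths src rev v0) :=
  ⟨fun x => if x.1.length ≤ R then wt src rev v0 a m x else 0,
    memlp_of_summable_sq _ (trunc_summable src rev v0 a m R)⟩

theorem trunc_apply [Fintype D] (a : D → ℝ) (m : D → ℂ) (R : ℕ) (x : paths src rev v0) :
    trunc src rev v0 a m R x = if x.1.length ≤ R then wt src rev v0 a m x else 0 := rfl

/-- sphere sums -/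
noncomputable def sph (a : D → ℝ) (m : D → ℂ) (k : ℕ) : ℝ :=
  ∑' x : paths src rev v0, if x.1.length = k then ‖wt src rev v0 a m x‖ ^ 2 else 0

theorem sph_summable [Fintype D] (F : paths src rev v0 → ℝ) (k : ℕ) :
    Summable fun x : paths src rev v0 => if x.1.length = k then F x else 0 := by
  apply summable_of_hasFiniteSupport
  apply (finite_len_le src rev v0 k).subset
  intro x hx
  rw [Function.mem_support] at hx
  by_contra hcon
  simp only [Set.mem_setOf_eq] at hcon
  have : x.1.length ≠ k := by omega
  simp [this] at hx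

theorem trunc_norm_sq [Fintype D] (a : D → ℝ) (m : D → ℂ) (R : ℕ) :
    ‖trunc src rev v0 a m R‖ ^ 2 = ∑ k ∈ Finset.range (R + 1), sph src rev v0 a m k := by
  rw [norm_sq_eq]
  unfold sph
  rw [← Summable.tsum_finsetSum (fun k _ => sph_summable src rev v0 _ k)]
  apply tsum_congr
  intro x
  rw [trunc_apply, Finset.sum_ite_eq]
  by_cases h : x.1.length ≤ R
  · have : x.1.length ∈ Finset.range (R + 1) := by simp; omega
    simp [h, this]
  · have : x.1.length ∉ Finset.range (R + 1) := by simp; omega
    simp [h, this]

end weyl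

end Pool.Agent.MP_64ae42_mp
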